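import Pool.Agent.R311.SE.A
import Pool.Agent.R311.SE.P
import Mathlib.Analysis.SpecialFunctions.Gamma.Deligne

set_option autoImplicit false

/-! The argument of the completed zeta function near one height. -/

namespace Pool.Agent.W5h34.SG

open Finset MeasureTheory Filter Topology
open Pool.Agent.W188.QS
open Pool.Agent.R311.BS (ex ex_norm ex_add)
open Pool.Agent.R311.SE (zl XX_deriv log_diff fe zl_cp)

noncomputable section

/-- the gamma factor -/
def GR (t : ℝ) : ℂ := Complex.Gammaℝ (cp t)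

/-- its direction -/
def EE (t : ℝ) : ℂ := GR t * ((‖GR t‖⁻¹ : ℝ) : ℂ)

/-- the phase -/
def vt (t : ℝ) : ℝ := t / 2 * Real.log (t / (2 * Real.pi)) - t / 2

lemma GR_ne (t : ℝ) : GR t ≠ 0 := Complex.Gammaℝ_ne_zero_of_re_pos (by simp [cp])

lemma EE_norm (t : ℝ) : ‖EE t‖ = 1 := by
  unfold EE
  rw [norm_mul, Complex.norm_real, norm_inv, norm_norm, mul_inv_cancel₀ (norm_ne_zero_iff.mpr (GR_ne t))]

lemma GR_conj (t : ℝ) : Complex.Gammaℝ (1 - cp t) = (starRingEnd ℂ) (GR t) := by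
  have e : 1 - cp t = (starRingEnd ℂ) (cp t) := by
    apply Complex.ext
    · simp [cp]; norm_num
    · simp [cp]
  unfold GR
  rw [e, Complex.Gammaℝ_def, Complex.Gammaℝ_def, map_mul, ← Complex.Gamma_conj]
  have hpi : (Real.pi : ℂ).arg ≠ Real.pi := by
    rw [Complex.arg_ofReal_of_nonneg Real.pi_pos.le]
    exact Real.pi_ne_zero.symm
  congr 1
  · have h := Complex.cpow_conj (Real.pi : ℂ) (-cp t / 2) hpi
    rw [Complex.conj_ofReal] at h
    rw [← h]
    congr 1
    rw [map_div₀, map_neg, map_ofNat]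
  · congr 1
    rw [map_div₀, map_ofNat]

lemma EE_sq (t : ℝ) : EE t ^ 2 = XX (cp t) := by
  have h1 : XX (cp t) = GR t / (starRingEnd ℂ) (GR t) := by
    have h2 := Complex.Gammaℝ_div_Gammaℝ_one_sub (s := cp t) (by
      intro n h
      have := congrArg Complex.re h
      simp [cp] at this
      have h3 : (0:ℝ) ≤ n := Nat.cast_nonneg n
      linarith)
    rw [GR_conj] at h2
    unfold GR at *
    rw [h2]
    unfold XX
    rw [Complex.Gammaℂ_def]
  rw [h1]
  have hn : (starRingEnd ℂ) (GR t) ≠ 0 := by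
    rw [Ne, map_eq_zero]; exact GR_ne t
  have h3 : GR t * (starRingEnd ℂ) (GR t) = ((‖GR t‖ ^ 2 : ℝ) : ℂ) := by
    rw [Complex.mul_conj, Complex.normSq_eq_norm_sq]
  have h4 : ((‖GR t‖ : ℝ) : ℂ) ≠ 0 := by
    exact_mod_cast norm_ne_zero_iff.mpr (GR_ne t)
  rw [eq_div_iff hn]
  unfold EE
  push_cast at h3 ⊢
  have h5 : (GR t * (‖GR t‖ : ℂ)⁻¹) ^ 2 * (starRingEnd ℂ) (GR t) =
    GR t * (GR t * (starRingEnd ℂ) (GR t)) * ((‖GR t‖ : ℂ)⁻¹) ^ 2 := by ring
  rw [h5, h3]
  field_simp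

lemma comp_eq (t : ℝ) : completedRiemannZeta (cp t) = ((‖GR t‖ : ℝ) : ℂ) * (EE t * zl t) := by
  have h0 : cp t ≠ 0 := by
    intro h
    have := congrArg Complex.re h
    simp [cp] at this
  have h1 := riemannZeta_def_of_ne_zero h0
  have h2 := GR_ne t
  have h4 : ((‖GR t‖ : ℝ) : ℂ) ≠ 0 := by
    exact_mod_cast norm_ne_zero_iff.mpr (GR_ne t)
  rw [zl_cp, h1]
  unfold EE
  unfold GR at *
  push_cast
  field_simp

/-- the rotated zeta function is real -/
lemma EZ_im {t : ℝ} (ht : 1 ≤ t) : (EE t * zl t).im = 0 := by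
  have h1 : (starRingEnd ℂ) (EE t * zl t) = EE t * zl t := by
    rw [map_mul, fe ht, ← EE_sq]
    have h2 : (starRingEnd ℂ) (EE t) * EE t = 1 := by
      rw [mul_comm, Complex.mul_conj, Complex.normSq_eq_norm_sq, EE_norm]; simp
    calc (starRingEnd ℂ) (EE t) * (EE t ^ 2 * zl t) = ((starRingEnd ℂ) (EE t) * EE t) * (EE t * zl t) := by ring
      _ = _ := by rw [h2, one_mul]
  exact Complex.conj_eq_iff_im.mp h1

lemma EZ_abs {t : ℝ} (ht : 1 ≤ t) : |(EE t * zl t).re| = ‖zl t‖ := by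
  have h := EZ_im ht
  have h1 : ‖EE t * zl t‖ = ‖zl t‖ := by rw [norm_mul, EE_norm, one_mul]
  rw [← h1, Complex.norm_def, Complex.normSq_apply, h, mul_zero, add_zero, Real.sqrt_mul_self_eq_abs]

lemma comp_re (t : ℝ) : (completedRiemannZeta (cp t)).re = ‖GR t‖ * (EE t * zl t).re := by
  rw [comp_eq, Complex.re_ofReal_mul]

lemma comp_sign (t s : ℝ) : 0 < s * (completedRiemannZeta (cp t)).re ↔ 0 < s * (EE t * zl t).re := by
  have h : 0 < ‖GR t‖ := norm_pos_iff.mpr (GR_ne t)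
  rw [comp_re]
  have e : s * (‖GR t‖ * (EE t * zl t).re) = ‖GR t‖ * (s * (EE t * zl t).re) := by ring
  rw [e]
  exact mul_pos_iff_of_pos_left h

lemma GR_diff (t : ℝ) : DifferentiableAt ℝ GR t := by
  have h1 : DifferentiableAt ℂ Complex.Gammaℝ (cp t) := by
    have h2 := (Complex.differentiable_Gammaℝ_inv (cp t)).inv (inv_ne_zero (GR_ne t))
    refine h2.congr_of_eventuallyEq (Eventually.of_forall fun s => ?_)
    simp
  have h3 : HasDerivAt cp Complex.I t := by
    unfold cp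
    have := (Complex.ofRealCLM.hasDerivAt (x := t)).mul_const Complex.I
    simpa using this.const_add (1 / 2 : ℂ)
  exact (HasDerivAt.scomp t h1.hasDerivAt h3).differentiableAt

lemma EE_diff (t : ℝ) : DifferentiableAt ℝ EE t := by
  have h1 := GR_diff t
  have h2 : DifferentiableAt ℝ (fun t => ‖GR t‖) t := h1.norm ℝ (GR_ne t)
  have h3 : DifferentiableAt ℝ (fun t => ‖GR t‖⁻¹) t := h2.inv (norm_ne_zero_iff.mpr (GR_ne t))
  have h4 : DifferentiableAt ℝ (fun t => ((‖GR t‖⁻¹ : ℝ) : ℂ)) t :=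
    (Complex.ofRealCLM.differentiableAt).comp t h3
  exact h1.mul h4

lemma EE_cont : Continuous EE := continuous_iff_continuousAt.mpr fun t => (EE_diff t).continuousAt

lemma EE_deriv {t : ℝ} (ht : 50 ≤ t) : HasDerivAt EE (EE t * (((lam t / 2 : ℝ) : ℂ) * Complex.I)) t := by
  have h1 := (EE_diff t).hasDerivAt
  have h2 := h1.mul h1
  have h3 : (fun x => EE x * EE x) = fun x => XX (cp x) := by
    funext x
    rw [← EE_sq, sq]
  have h4 := XX_deriv ht
  rw [show (EE * EE : ℝ → ℂ) = fun x => EE x * EE x from rfl, h3] at h2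
  have h5 := h2.unique h4
  rw [← EE_sq] at h5
  have h0 : EE t ≠ 0 := by
    rw [← norm_ne_zero_iff, EE_norm]; norm_num
  have h6 : deriv EE t = EE t * (((lam t / 2 : ℝ) : ℂ) * Complex.I) := by
    have h7 : 2 * EE t * deriv EE t = 2 * EE t * (EE t * (((lam t / 2 : ℝ) : ℂ) * Complex.I)) := by
      push_cast
      linear_combination h5
    exact mul_left_cancel₀ (mul_ne_zero two_ne_zero h0) h7
  rwa [h6] at h1

/-- linearisation of the direction -/
theorem EE_lin {τ R t : ℝ} (hτ : 100 ≤ τ) (hR : R ≤ τ / 2) (ht : |t - τ| ≤ R) :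
    ‖EE t - EE τ * ex (Real.log (τ / (2 * Real.pi)) / 2) (t - τ)‖ ≤ R * (28 + 2 * R) / τ := by
  obtain ⟨hl, hn, -⟩ := Pool.Agent.W338.QS.qs_line
  have hR0 : 0 ≤ R := (abs_nonneg _).trans ht
  set Ω := Real.log (τ / (2 * Real.pi)) with hΩ
  set h : ℝ → ℂ := fun t => EE t * ex (-(Ω / 2)) (t - τ) with hh
  have hder : ∀ x ∈ Set.Icc (τ - R) (τ + R), HasDerivWithinAt h
      (h x * ((((lam x - Ω) / 2 : ℝ) : ℂ) * Complex.I)) (Set.Icc (τ - R) (τ + R)) x := by
    intro x hx
    have hx50 : 50 ≤ x := by linarith [hx.1]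
    have h1 := EE_deriv hx50
    have h2 : HasDerivAt (fun t : ℝ => ex (-(Ω / 2)) (t - τ))
        (ex (-(Ω / 2)) (x - τ) * (((-(Ω / 2) : ℝ) : ℂ) * Complex.I)) x := by
      unfold ex
      have h3 : HasDerivAt (fun t : ℝ => (((-(Ω / 2) * (t - τ) : ℝ) : ℂ) * Complex.I))
          (((-(Ω / 2) : ℝ) : ℂ) * Complex.I) x := by
        have h4 : HasDerivAt (fun t : ℝ => -(Ω / 2) * (t - τ)) (-(Ω / 2)) x := by
          simpa using ((hasDerivAt_id x).sub_const τ).const_mul (-(Ω / 2))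
        exact (h4.ofReal_comp).mul_const Complex.I
      exact h3.cexp
    have h5 := h1.mul h2
    refine (h5.congr_deriv ?_).hasDerivWithinAt
    rw [hh]
    simp only
    push_cast
    ring
  have hbd : ∀ x ∈ Set.Icc (τ - R) (τ + R), ‖h x * ((((lam x - Ω) / 2 : ℝ) : ℂ) * Complex.I)‖ ≤
      (28 + 2 * R) / τ := by
    intro x hx
    have hx50 : 50 ≤ x := by linarith [hx.1]
    have hxa : |x - τ| ≤ R := by rw [abs_le]; constructor <;> linarith [hx.1, hx.2]
    have e1 : ‖h x‖ = 1 := by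
      rw [hh]; simp only
      rw [norm_mul, ex_norm, EE_norm x, mul_one]
    rw [norm_mul (h x), e1, one_mul, norm_mul, Complex.norm_I, mul_one, Complex.norm_real, Real.norm_eq_abs]
    have h1 := (hl x hx50).2.1
    have h2 := log_diff (by linarith) hR hxa
    have h3 : |lam x - Ω| ≤ |lam x - Real.log (x / (2 * Real.pi))| + |Real.log (x / (2 * Real.pi)) - Ω| := by
      have : lam x - Ω = (lam x - Real.log (x / (2 * Real.pi))) + (Real.log (x / (2 * Real.pi)) - Ω) := by ring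
      rw [this]; exact abs_add_le _ _
    have h4 : 14 / x ≤ 28 / τ := by
      rw [div_le_div_iff₀ (by linarith) (by linarith)]
      linarith [hx.1]
    have h5 : |(lam x - Ω) / 2| ≤ |lam x - Ω| := by
      rw [abs_div, abs_two]
      have := abs_nonneg (lam x - Ω)
      linarith
    calc |(lam x - Ω) / 2| ≤ 28 / τ + 2 * R / τ := by linarith
      _ = _ := by ring
  have hτm : τ ∈ Set.Icc (τ - R) (τ + R) := ⟨by linarith, by linarith⟩
  have htm : t ∈ Set.Icc (τ - R) (τ + R) := by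
    have := abs_le.mp ht
    constructor <;> linarith [this.1, this.2]
  have key := Convex.norm_image_sub_le_of_norm_hasDerivWithin_le hder hbd (convex_Icc _ _) hτm htm
  have e0 : h τ = EE τ := by
    rw [hh]; simp only
    unfold ex
    simp
  rw [e0] at key
  have e2 : EE t - EE τ * ex (Ω / 2) (t - τ) = (h t - EE τ) * ex (Ω / 2) (t - τ) := by
    rw [hh]; simp only
    have : ex (-(Ω / 2)) (t - τ) * ex (Ω / 2) (t - τ) = 1 := by
      rw [← ex_add]
      unfold ex
      simp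
    calc _ = EE t * 1 - EE τ * ex (Ω / 2) (t - τ) := by ring
      _ = EE t * (ex (-(Ω / 2)) (t - τ) * ex (Ω / 2) (t - τ)) - EE τ * ex (Ω / 2) (t - τ) := by rw [this]
      _ = _ := by ring
  rw [e2, norm_mul, ex_norm, mul_one]
  refine key.trans ?_
  rw [Real.norm_eq_abs]
  calc (28 + 2 * R) / τ * |t - τ| ≤ (28 + 2 * R) / τ * R := by gcongr
    _ = _ := by ring

lemma vt_deriv {t : ℝ} (ht : 0 < t) : HasDerivAt vt (Real.log (t / (2 * Real.pi)) / 2) t := by
  have hpi := Real.pi_pos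
  have h1 : HasDerivAt (fun t : ℝ => t / (2 * Real.pi)) (1 / (2 * Real.pi)) t := by
    simpa using (hasDerivAt_id t).div_const (2 * Real.pi)
  have h2 := h1.log (by positivity)
  have h3 : HasDerivAt (fun t : ℝ => t / 2) (1 / 2) t := by
    simpa using (hasDerivAt_id t).div_const 2
  have h4 := (h3.mul h2).sub h3
  refine h4.congr_deriv ?_
  field_simp
  ring

lemma vt_lin {τ R t : ℝ} (hτ : 100 ≤ τ) (hR : R ≤ τ / 2) (ht : |t - τ| ≤ R) :
    |vt t - (vt τ + Real.log (τ / (2 * Real.pi)) / 2 * (t - τ))| ≤ R * (28 + 2 * R) / τ := by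
  have hR0 : 0 ≤ R := (abs_nonneg _).trans ht
  set Ω := Real.log (τ / (2 * Real.pi)) with hΩ
  set h : ℝ → ℝ := fun t => vt t - Ω / 2 * (t - τ) with hh
  have hder : ∀ x ∈ Set.Icc (τ - R) (τ + R), HasDerivWithinAt h
      (Real.log (x / (2 * Real.pi)) / 2 - Ω / 2) (Set.Icc (τ - R) (τ + R)) x := by
    intro x hx
    have hx0 : 0 < x := by linarith [hx.1]
    have h1 := vt_deriv hx0
    have h4 : HasDerivAt (fun t : ℝ => Ω / 2 * (t - τ)) (Ω / 2) x := by
      simpa using ((hasDerivAt_id x).sub_const τ).const_mul (Ω / 2)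
    exact (h1.sub h4).hasDerivWithinAt
  have hbd : ∀ x ∈ Set.Icc (τ - R) (τ + R), ‖Real.log (x / (2 * Real.pi)) / 2 - Ω / 2‖ ≤
      (28 + 2 * R) / τ := by
    intro x hx
    have hxa : |x - τ| ≤ R := by rw [abs_le]; constructor <;> linarith [hx.1, hx.2]
    have h2 := log_diff (by linarith) hR hxa
    have e : Real.log (x / (2 * Real.pi)) / 2 - Ω / 2 = (Real.log (x / (2 * Real.pi)) - Ω) / 2 := by ring
    rw [Real.norm_eq_abs, e, abs_div, abs_two]
    have h3 := abs_nonneg (Real.log (x / (2 * Real.pi)) - Ω)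
    have h4 : 2 * R / τ ≤ (28 + 2 * R) / τ := by
      have : 0 < τ := by linarith
      gcongr
      linarith
    linarith
  have hτm : τ ∈ Set.Icc (τ - R) (τ + R) := ⟨by linarith, by linarith⟩
  have htm : t ∈ Set.Icc (τ - R) (τ + R) := by
    have := abs_le.mp ht
    constructor <;> linarith [this.1, this.2]
  have key := Convex.norm_image_sub_le_of_norm_hasDerivWithin_le hder hbd (convex_Icc _ _) hτm htm
  have e2 : h t - h τ = vt t - (vt τ + Ω / 2 * (t - τ)) := by
    rw [hh]; simp only; ring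
  rw [e2, Real.norm_eq_abs, Real.norm_eq_abs] at key
  refine key.trans ?_
  calc (28 + 2 * R) / τ * |t - τ| ≤ (28 + 2 * R) / τ * R := by
        have : 0 < τ := by linarith
        gcongr
    _ = _ := by ring

end

end Pool.Agent.W5h34.SG
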