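import Pool.Agent.W5h34.SG.A
import Pool.Agent.R311.SE.E

set_option autoImplicit false

/-! Gaussian averages of zeta times short Dirichlet polynomials against one exponential of any frequency. -/

namespace Pool.Agent.W5h34.SG

open Finset MeasureTheory Filter Topology
open Pool.Agent.H306R2 Pool.Agent.R311.BS
open Pool.Agent.R311.SE (zl zl_cont Aq zA AL AL_cont AL_norm Aq_Dp zA_Dp Sd TT_nonres Aq_bd)

noncomputable section

lemma dv_pow2 {κ : ℝ} (hκ : 0 ≤ κ) (n k : ℕ) : dv κ n ^ (2 ^ k) ≤ dv (κ ^ (2 ^ k)) n := by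
  induction k with
  | zero => simp
  | succ k ih =>
    have h0 := dv_nonneg hκ n
    have h1 := dv_sq_le (κ := κ ^ (2 ^ k)) (by positivity) n
    calc dv κ n ^ (2 ^ (k + 1)) = (dv κ n ^ (2 ^ k)) ^ 2 := by rw [← pow_mul, pow_succ]
      _ ≤ (dv (κ ^ (2 ^ k)) n) ^ 2 := pow_le_pow_left₀ (by positivity) ih 2
      _ ≤ dv ((κ ^ (2 ^ k)) ^ 2) n := h1
      _ = _ := by rw [← pow_mul, pow_succ]

/-- pointwise bound for the generalised divisor functions -/
theorem dv_eps {κ : ℝ} (hκ : 0 ≤ κ) (ε : ℝ) (hε : 0 < ε) : ∃ C : ℝ, 0 < C ∧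
    ∀ n : ℕ, 1 ≤ n → dv κ n ≤ C * (n:ℝ) ^ ε := by
  obtain ⟨k, hk⟩ := pow_unbounded_of_one_lt (2 / ε) (one_lt_two (α := ℝ))
  obtain ⟨C, hC, h⟩ := dv_growth (κ := κ ^ (2 ^ k)) (by positivity)
  have hK : (0:ℝ) < 2 ^ k := by positivity
  have hKn : (2 ^ k : ℕ) ≠ 0 := by positivity
  refine ⟨(1 + C) ^ (((2 ^ k : ℕ) : ℝ)⁻¹), by positivity, fun n hn => ?_⟩
  have hn0 : (0:ℝ) < n := by exact_mod_cast hn
  have hn1 : (1:ℝ) ≤ n := by exact_mod_cast hn
  have h0 := dv_nonneg hκ n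
  have h1 := dv_pow2 hκ n k
  have h2 := dv_nonneg (α := κ ^ (2 ^ k)) (by positivity) n
  have h3 : dv (κ ^ (2 ^ k)) n ≤ (1 + C) * (n:ℝ) ^ 2 := by
    have h4 := h n
    have h5 : (1:ℝ) ≤ (n:ℝ) ^ 2 := one_le_pow₀ hn1
    rcases le_or_gt (dv (κ ^ (2 ^ k)) n) 1 with h6 | h6
    · nlinarith
    · have h7 : dv (κ ^ (2 ^ k)) n ≤ dv (κ ^ (2 ^ k)) n ^ 8 := by
        calc dv (κ ^ (2 ^ k)) n = dv (κ ^ (2 ^ k)) n ^ 1 := (pow_one _).symm
          _ ≤ _ := pow_le_pow_right₀ h6.le (by norm_num)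
      nlinarith
  have h4 : dv κ n = (dv κ n ^ (2 ^ k)) ^ (((2 ^ k : ℕ) : ℝ)⁻¹) :=
    (Real.pow_rpow_inv_natCast h0 hKn).symm
  rw [h4]
  have h5 : (dv κ n ^ (2 ^ k)) ^ (((2 ^ k : ℕ) : ℝ)⁻¹) ≤ ((1 + C) * (n:ℝ) ^ 2) ^ (((2 ^ k : ℕ) : ℝ)⁻¹) :=
    Real.rpow_le_rpow (by positivity) (h1.trans h3) (by positivity)
  refine h5.trans ?_
  rw [Real.mul_rpow (by positivity) (by positivity)]
  refine mul_le_mul_of_nonneg_left ?_ (by positivity)
  rw [← Real.rpow_natCast, ← Real.rpow_mul hn0.le]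
  refine Real.rpow_le_rpow_of_exponent_le hn1 ?_
  push_cast
  rw [← div_eq_mul_inv, div_le_iff₀ hK]
  rw [div_lt_iff₀ hε] at hk
  linarith

lemma zA_bd' (N X : ℝ) (a n : ℕ) : 0 ≤ zA N X a n ∧ zA N X a n ≤ dv ((a:ℝ) / 2 + 1) n := by
  have h1 := mul_mono_le (n:ℝ) (f := cA 1 N (1 / 2) ^ a) (f' := xA 1 ((a : ℝ) * (1 / 2)))
    (g := cA 1 X 1) (g' := xA 1 1) (fun m _ => cA_pow_le 1 N (by norm_num) a m)
    (fun m _ => ⟨cA_nonneg 1 X zero_le_one m, cA_le 1 X zero_le_one m⟩) n le_rfl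
  rw [xA_mul] at h1
  refine ⟨h1.1, h1.2.trans ?_⟩
  have e : (a:ℝ) * (1 / 2) + 1 = (a:ℝ) / 2 + 1 := by ring
  rw [e]
  exact xA_le 1 (by positivity) n

/-- the number of integers in a short interval -/
lemma card_Ioo_real (s : Finset ℕ) (u v : ℝ) (huv : u ≤ v) (h : ∀ n ∈ s, u < n ∧ (n:ℝ) < v) :
    (s.card : ℝ) ≤ v - u + 1 := by
  rcases s.eq_empty_or_nonempty with h0 | h0
  · subst h0
    simp only [card_empty, Nat.cast_zero]
    linarith
  · have hsub : s ⊆ Icc (s.min' h0) (s.max' h0) := fun n hn => mem_Icc.mpr ⟨s.min'_le n hn, s.le_max' n hn⟩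
    have hc := card_le_card hsub
    rw [Nat.card_Icc] at hc
    have h1 := h _ (s.min'_mem h0)
    have h2 := h _ (s.max'_mem h0)
    have h3 : s.min' h0 ≤ s.max' h0 := s.min'_le _ (s.max'_mem h0)
    have h4 : (s.card : ℝ) ≤ ((s.max' h0 + 1 - s.min' h0 : ℕ) : ℝ) := by exact_mod_cast hc
    rw [Nat.cast_sub (by omega)] at h4
    push_cast at h4
    linarith [h1.1, h2.2]

/-- the near part of one resonant frequency -/
theorem NN_res (f g : ℕ → ℝ) (X Y ρ ω B : ℝ) (hY : 1 ≤ Y) (hρ : 0 ≤ ρ) (hρ1 : ρ ≤ 1) (hB : 0 ≤ B)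
    (hf : ∀ n : ℕ, 1 ≤ n → (n:ℝ) ≤ X → |f n| ≤ B) (hg : ∀ n : ℕ, 1 ≤ n → (n:ℝ) ≤ Y → |g n| ≤ B) :
    NN f g X Y ρ ω ≤ 2 * B ^ 2 * Y * (Real.exp (-(ω / 2)) + 4 * ρ * Real.exp (ω / 2)) := by
  unfold NN
  rw [sum_comm]
  have hone : ∀ l ∈ Icc 1 ⌊Y⌋₊, (∑ n ∈ Icc 1 ⌊X⌋₊, if |ω - Real.log n + Real.log l| < ρ then
      (|f n| * (Real.sqrt n)⁻¹) * (|g l| * (Real.sqrt l)⁻¹) else 0) ≤
      2 * B ^ 2 * (Real.exp (-(ω / 2)) + 4 * ρ * Real.exp (ω / 2)) := by
    intro l hl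
    rw [mem_Icc] at hl
    have hlY : (l:ℝ) ≤ Y := (Nat.cast_le.mpr hl.2).trans (Nat.floor_le (by linarith))
    have hl0 : (0:ℝ) < l := by exact_mod_cast hl.1
    have hl1 : (1:ℝ) ≤ l := by exact_mod_cast hl.1
    rw [← sum_filter]
    set S := (Icc 1 ⌊X⌋₊).filter (fun n : ℕ => |ω - Real.log n + Real.log l| < ρ) with hS
    have hmem : ∀ n ∈ S, 1 ≤ n ∧ (n:ℝ) ≤ X ∧ l * Real.exp (ω - ρ) < n ∧ (n:ℝ) < l * Real.exp (ω + ρ) := by
      intro n hn
      rw [hS, mem_filter, mem_Icc] at hn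
      obtain ⟨⟨h1, h2⟩, h3⟩ := hn
      have hn0 : (0:ℝ) < n := by exact_mod_cast h1
      have hX0 : 0 < ⌊X⌋₊ := by omega
      have hX : (n:ℝ) ≤ X :=
        (Nat.cast_le.mpr h2).trans (Nat.floor_le ((Nat.floor_pos.mp hX0).trans' zero_le_one))
      rw [abs_lt] at h3
      refine ⟨h1, hX, ?_, ?_⟩
      · rw [← Real.log_lt_log_iff (by positivity) hn0, Real.log_mul hl0.ne' (Real.exp_pos _).ne', Real.log_exp]
        linarith [h3.2]
      · rw [← Real.log_lt_log_iff hn0 (by positivity), Real.log_mul hl0.ne' (Real.exp_pos _).ne', Real.log_exp]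
        linarith [h3.1]
    have hcard : (S.card : ℝ) ≤ 4 * ρ * (l * Real.exp ω) + 1 := by
      have h1 := card_Ioo_real S (l * Real.exp (ω - ρ)) (l * Real.exp (ω + ρ)) (by
        gcongr; linarith) (fun n hn => (hmem n hn).2.2)
      have h2 : l * Real.exp (ω + ρ) - l * Real.exp (ω - ρ) ≤ 4 * ρ * (l * Real.exp ω) := by
        have e1 : Real.exp (ω + ρ) = Real.exp ω * Real.exp ρ := Real.exp_add _ _
        have e2 : Real.exp (ω - ρ) = Real.exp ω * Real.exp (-ρ) := by rw [sub_eq_add_neg, Real.exp_add]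
        rw [e1, e2]
        have h3 : Real.exp ρ - 1 ≤ 2 * ρ + 0 := by
          have := Real.abs_exp_sub_one_le (x := ρ) (by rw [abs_of_nonneg hρ]; exact hρ1)
          rw [abs_of_nonneg hρ] at this
          have := (abs_le.mp this).2
          linarith
        have h4 : 1 - Real.exp (-ρ) ≤ ρ := by
          have := Real.add_one_le_exp (-ρ)
          linarith
        have h5 : Real.exp ρ - Real.exp (-ρ) ≤ 4 * ρ := by linarith
        have h6 : 0 < (l:ℝ) * Real.exp ω := by positivity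
        nlinarith
      linarith
    have hterm : ∀ n ∈ S, (|f n| * (Real.sqrt n)⁻¹) * (|g l| * (Real.sqrt l)⁻¹) ≤
        2 * B ^ 2 * ((l:ℝ)⁻¹ * Real.exp (-(ω / 2))) := by
      intro n hn
      obtain ⟨h1, h2, h3, h4⟩ := hmem n hn
      have hn0 : (0:ℝ) < n := by exact_mod_cast h1
      have hs1 : (Real.sqrt n)⁻¹ ≤ 2 * ((Real.sqrt l)⁻¹ * Real.exp (-(ω / 2))) := by
        have h5 : Real.sqrt (l * Real.exp (ω - ρ)) ≤ Real.sqrt n := Real.sqrt_le_sqrt h3.le
        have h6 : Real.sqrt (l * Real.exp (ω - ρ)) = Real.sqrt l * Real.exp ((ω - ρ) / 2) := by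
          rw [Real.sqrt_mul hl0.le, Real.exp_half]
        rw [h6] at h5
        have h7 : (Real.sqrt n)⁻¹ ≤ (Real.sqrt l * Real.exp ((ω - ρ) / 2))⁻¹ := by
          apply inv_anti₀ _ h5
          positivity
        refine h7.trans ?_
        rw [mul_inv, ← Real.exp_neg]
        have h8 : Real.exp (-((ω - ρ) / 2)) ≤ 2 * Real.exp (-(ω / 2)) := by
          have e1 : -((ω - ρ) / 2) = ρ / 2 + -(ω / 2) := by ring
          rw [e1, Real.exp_add]
          have h9 : Real.exp (ρ / 2) ≤ 2 := by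
            have h10 : Real.exp (ρ / 2) ≤ Real.exp (1 / 2) := Real.exp_le_exp.mpr (by linarith)
            have h11 : Real.exp (1 / 2) ^ 2 = Real.exp 1 := by
              rw [← Real.exp_nat_mul]; norm_num
            have h12 := Real.exp_one_lt_d9
            have h13 : Real.exp (1 / 2) ≤ 2 := by
              by_contra hc
              rw [not_le] at hc
              nlinarith
            linarith
          gcongr
        have h9 : 0 ≤ (Real.sqrt l)⁻¹ := by positivity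
        calc (Real.sqrt l)⁻¹ * Real.exp (-((ω - ρ) / 2)) ≤ (Real.sqrt l)⁻¹ * (2 * Real.exp (-(ω / 2))) := by gcongr
          _ = _ := by ring
      have hsq : (Real.sqrt l)⁻¹ * (Real.sqrt l)⁻¹ = (l:ℝ)⁻¹ := by
        rw [← mul_inv, Real.mul_self_sqrt hl0.le]
      have hf1 := hf n h1 h2
      have hg1 := hg l hl.1 hlY
      calc (|f n| * (Real.sqrt n)⁻¹) * (|g l| * (Real.sqrt l)⁻¹) ≤
          (B * (2 * ((Real.sqrt l)⁻¹ * Real.exp (-(ω / 2))))) * (B * (Real.sqrt l)⁻¹) := by gcongr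
        _ = 2 * B ^ 2 * (((Real.sqrt l)⁻¹ * (Real.sqrt l)⁻¹) * Real.exp (-(ω / 2))) := by ring
        _ = _ := by rw [hsq]
    calc ∑ n ∈ S, (|f n| * (Real.sqrt n)⁻¹) * (|g l| * (Real.sqrt l)⁻¹) ≤
        ∑ _n ∈ S, 2 * B ^ 2 * ((l:ℝ)⁻¹ * Real.exp (-(ω / 2))) := sum_le_sum hterm
      _ = S.card * (2 * B ^ 2 * ((l:ℝ)⁻¹ * Real.exp (-(ω / 2)))) := by rw [sum_const, nsmul_eq_mul]
      _ ≤ (4 * ρ * (l * Real.exp ω) + 1) * (2 * B ^ 2 * ((l:ℝ)⁻¹ * Real.exp (-(ω / 2)))) := by gcongr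
      _ = 2 * B ^ 2 * ((l:ℝ)⁻¹ * Real.exp (-(ω / 2)) + 4 * ρ * (Real.exp ω * Real.exp (-(ω / 2)))) := by
          field_simp
          ring
      _ ≤ 2 * B ^ 2 * (Real.exp (-(ω / 2)) + 4 * ρ * Real.exp (ω / 2)) := by
          have e1 : Real.exp ω * Real.exp (-(ω / 2)) = Real.exp (ω / 2) := by
            rw [← Real.exp_add]; congr 1; ring
          rw [e1]
          have h5 : (l:ℝ)⁻¹ ≤ 1 := inv_le_one_of_one_le₀ hl1
          have h6 := Real.exp_pos (-(ω / 2))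
          have h7 : (l:ℝ)⁻¹ * Real.exp (-(ω / 2)) ≤ Real.exp (-(ω / 2)) := by nlinarith
          gcongr
  refine (sum_le_sum hone).trans ?_
  rw [sum_const, Nat.card_Icc, nsmul_eq_mul, Nat.add_sub_cancel]
  have h1 : (⌊Y⌋₊ : ℝ) ≤ Y := Nat.floor_le (by linarith)
  have h2 : 0 ≤ 2 * B ^ 2 * (Real.exp (-(ω / 2)) + 4 * ρ * Real.exp (ω / 2)) := by positivity
  calc (⌊Y⌋₊ : ℝ) * (2 * B ^ 2 * (Real.exp (-(ω / 2)) + 4 * ρ * Real.exp (ω / 2))) ≤
      Y * (2 * B ^ 2 * (Real.exp (-(ω / 2)) + 4 * ρ * Real.exp (ω / 2))) := by gcongr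
    _ = _ := by ring

/-- the integrand -/
def KF (N τ H : ℝ) (a b : ℕ) (ω t : ℝ) : ℂ :=
  (ex ω t * (zl t * AL N t ^ a * (starRingEnd ℂ) (AL N t ^ b))) * (gw τ H t : ℂ)

/-- the window average -/
def Kw (N τ H R : ℝ) (a b : ℕ) (ω : ℝ) : ℂ := ∫ t in Set.Ioc (τ - R) (τ + R), KF N τ H a b ω t

lemma KF_cont (N τ H : ℝ) (a b : ℕ) (ω : ℝ) : Continuous (KF N τ H a b ω) := by
  unfold KF
  have c1 := AL_cont N
  have c4 := zl_cont
  have c5 : Continuous fun t : ℝ => (starRingEnd ℂ) (AL N t ^ b) :=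
    Complex.continuous_conj.comp (c1.pow b)
  have c6 := ex_cont ω
  have c7 : Continuous fun t : ℝ => (gw τ H t : ℂ) := Complex.continuous_ofReal.comp (gw_continuous τ H)
  fun_prop

lemma cI {τ R : ℝ} {E : Type*} [NormedAddCommGroup E] (F : ℝ → E) (hF : Continuous F) :
    IntegrableOn F (Set.Ioc (τ - R) (τ + R)) :=
  (hF.integrableOn_Icc (a := τ - R) (b := τ + R)).mono_set Set.Ioc_subset_Icc_self

theorem KJ (a b : ℕ) (N X τ H R e₁ L ω : ℝ) (hN : 1 ≤ N) (hX : 0 ≤ X) (hH : 0 < H) (hR : 0 ≤ R)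
    (he₁ : 0 ≤ e₁) (hL1 : l1 (zA N X a) (N ^ a * X) ≤ L) (hL2 : l1 (Aq N b) (N ^ b) ≤ L)
    (happ : ∀ t ∈ Set.Ioc (τ - R) (τ + R), ‖zl t - zX X t‖ ≤ e₁) :
    ‖Kw N τ H R a b ω - TT (zA N X a) (Aq N b) (N ^ a * X) (N ^ b) τ H ω‖ ≤
      L * L * (2 * Real.exp (-(R ^ 2 / (2 * H ^ 2)))) + e₁ * N ^ (a + b) := by
  set Y := N ^ b with hYd
  set Xf := N ^ a * X with hXfd
  have hL0 : 0 ≤ L := (l1_nonneg _ _).trans hL2
  obtain ⟨hGint0, hGval0⟩ := expansion ({()} : Finset Unit) (fun _ => (1:ℂ)) (fun _ => ω)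
    (zA N X a) (Aq N b) Xf Y τ H hH
  set G : ℝ → ℂ := fun t => ((∑ _m ∈ ({()} : Finset Unit), (1:ℂ) * ex ω t) *
      Dp (zA N X a) Xf (1 / 2 + t * Complex.I) *
      (starRingEnd ℂ) (Dp (Aq N b) Y (1 / 2 + t * Complex.I))) * (gw τ H t : ℂ) with hG
  have hGint : Integrable G := hGint0
  have hGval : ∫ t, G t = TT (zA N X a) (Aq N b) Xf Y τ H ω := by
    rw [hG]
    rw [hGval0, sum_singleton]
    unfold TT
    simp only [one_mul]
  set I := Set.Ioc (τ - R) (τ + R) with hI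
  have hImeas : MeasurableSet I := measurableSet_Ioc
  have hgwI := gw_integrable τ H hH
  have hGe : ∀ t, G t = (ex ω t * Dp (zA N X a) Xf (1 / 2 + t * Complex.I) *
      (starRingEnd ℂ) (Dp (Aq N b) Y (1 / 2 + t * Complex.I))) * (gw τ H t : ℂ) := by
    intro t
    rw [hG]
    simp only [sum_singleton, one_mul]
  -- outside
  have hout : ‖∫ t in Iᶜ, G t‖ ≤ L * L * (2 * Real.exp (-(R ^ 2 / (2 * H ^ 2)))) := by
    calc ‖∫ t in Iᶜ, G t‖ ≤ ∫ t in Iᶜ, ‖G t‖ := norm_integral_le_integral_norm _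
      _ ≤ ∫ t in Iᶜ, (L * L) * gw τ H t := by
          refine setIntegral_mono_on hGint.norm.integrableOn (hgwI.const_mul _).integrableOn
            hImeas.compl fun t _ => ?_
          have hg := gw_nonneg τ H t hH
          rw [hGe, norm_mul, norm_mul, norm_mul, RCLike.norm_conj, Complex.norm_real,
            Real.norm_of_nonneg hg, ex_norm, one_mul]
          have a2 : ‖Dp (zA N X a) Xf (1 / 2 + t * Complex.I)‖ ≤ L := (Dp_line_norm _ _ _).trans hL1
          have a3 : ‖Dp (Aq N b) Y (1 / 2 + t * Complex.I)‖ ≤ L := (Dp_line_norm _ _ _).trans hL2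
          gcongr
      _ = (L * L) * ∫ t in Iᶜ, gw τ H t := integral_const_mul _ _
      _ ≤ (L * L) * (2 * Real.exp (-(R ^ 2 / (2 * H ^ 2)))) := by
          gcongr
          exact gw_tail τ H R hH hR
      _ = _ := by ring
  -- replacement
  have hG'I : IntegrableOn (KF N τ H a b ω) I := cI _ (KF_cont N τ H a b ω)
  have happx : ‖(∫ t in I, KF N τ H a b ω t) - ∫ t in I, G t‖ ≤ e₁ * N ^ (a + b) := by
    rw [← integral_sub hG'I hGint.integrableOn]
    calc ‖∫ t in I, (KF N τ H a b ω t - G t)‖ ≤ ∫ t in I, ‖KF N τ H a b ω t - G t‖ :=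
          norm_integral_le_integral_norm _
      _ ≤ ∫ t in I, (e₁ * N ^ (a + b)) * gw τ H t := by
          refine setIntegral_mono_on (hG'I.sub hGint.integrableOn).norm
            (hgwI.const_mul _).integrableOn hImeas fun t ht => ?_
          have e1 : KF N τ H a b ω t - G t = (ex ω t *
              ((zl t - zX X t) * AL N t ^ a * (starRingEnd ℂ) (AL N t ^ b))) * (gw τ H t : ℂ) := by
            rw [hGe]
            unfold KF
            rw [hYd, hXfd, zA_Dp N X hN hX, Aq_Dp N hN]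
            ring
          have hg := gw_nonneg τ H t hH
          rw [e1, norm_mul, norm_mul, norm_mul, norm_mul, RCLike.norm_conj, norm_pow, norm_pow,
            Complex.norm_real, Real.norm_of_nonneg hg, ex_norm, one_mul]
          have b1 := happ t ht
          have a3 := AL_norm N hN t
          calc _ ≤ (e₁ * N ^ a * N ^ b) * gw τ H t := by gcongr
            _ = _ := by rw [pow_add]; ring
      _ ≤ ∫ t, (e₁ * N ^ (a + b)) * gw τ H t := by
          refine setIntegral_le_integral (hgwI.const_mul _) (Eventually.of_forall fun t => ?_)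
          have := gw_nonneg τ H t hH
          simp only [Pi.zero_apply]
          positivity
      _ = e₁ * N ^ (a + b) := by
          rw [integral_const_mul, gw_integral τ H hH, mul_one]
  have hsplit := integral_add_compl hImeas hGint
  have e2 : Kw N τ H R a b ω - TT (zA N X a) (Aq N b) Xf Y τ H ω =
      ((∫ t in I, KF N τ H a b ω t) - ∫ t in I, G t) - ∫ t in Iᶜ, G t := by
    rw [← hGval, ← hsplit]
    unfold Kw
    ring
  rw [e2]
  refine (norm_sub_le _ _).trans ?_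
  linarith

/-- the functional equation for window averages -/
theorem KFE (a b : ℕ) (N τ H R e₂ Ω ω : ℝ) (v : ℂ) (hN : 1 ≤ N) (hH : 0 < H) (he₂ : 0 ≤ e₂)
    (hfe : ∀ t ∈ Set.Ioc (τ - R) (τ + R), ‖ex Ω t * zl t - v * (starRingEnd ℂ) (zl t)‖ ≤ e₂) :
    ‖Kw N τ H R a b ω - v * (starRingEnd ℂ) (Kw N τ H R b a (Ω - ω))‖ ≤ e₂ * N ^ (a + b) := by
  set I := Set.Ioc (τ - R) (τ + R) with hI
  have hImeas : MeasurableSet I := measurableSet_Ioc
  have hgwI := gw_integrable τ H hH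
  have c1 := KF_cont N τ H a b ω
  have c2 : Continuous fun t => v * (starRingEnd ℂ) (KF N τ H b a (Ω - ω) t) :=
    continuous_const.mul (Complex.continuous_conj.comp (KF_cont N τ H b a (Ω - ω)))
  have e1 : v * (starRingEnd ℂ) (Kw N τ H R b a (Ω - ω)) =
      ∫ t in I, v * (starRingEnd ℂ) (KF N τ H b a (Ω - ω) t) := by
    unfold Kw
    rw [← integral_conj, ← integral_const_mul]
  rw [e1]
  unfold Kw
  rw [← integral_sub (cI _ c1) (cI _ c2)]
  calc ‖∫ t in I, (KF N τ H a b ω t - v * (starRingEnd ℂ) (KF N τ H b a (Ω - ω) t))‖ ≤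
      ∫ t in I, ‖KF N τ H a b ω t - v * (starRingEnd ℂ) (KF N τ H b a (Ω - ω) t)‖ :=
        norm_integral_le_integral_norm _
    _ ≤ ∫ t in I, (e₂ * N ^ (a + b)) * gw τ H t := by
        refine setIntegral_mono_on (cI _ (c1.sub c2)).norm
          (hgwI.const_mul _).integrableOn hImeas fun t ht => ?_
        have e3 : (starRingEnd ℂ) (ex (Ω - ω) t) = ex (ω - Ω) t := by
          unfold ex
          rw [← Complex.exp_conj, map_mul, Complex.conj_ofReal, Complex.conj_I]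
          congr 1
          push_cast
          ring
        have e4 : ex ω t = ex (ω - Ω) t * ex Ω t := by
          rw [← ex_add]
          congr 1
          ring
        have e2 : KF N τ H a b ω t - v * (starRingEnd ℂ) (KF N τ H b a (Ω - ω) t) =
            ex (ω - Ω) t * ((ex Ω t * zl t - v * (starRingEnd ℂ) (zl t)) *
              (AL N t ^ a * (starRingEnd ℂ) (AL N t ^ b))) * (gw τ H t : ℂ) := by
          unfold KF
          rw [e4]
          simp only [map_mul, Complex.conj_conj, Complex.conj_ofReal, map_pow, e3]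
          ring
        have hg := gw_nonneg τ H t hH
        rw [e2, norm_mul, norm_mul, norm_mul, norm_mul, RCLike.norm_conj, norm_pow, norm_pow,
          Complex.norm_real, Real.norm_of_nonneg hg, ex_norm, one_mul]
        have b1 := hfe t ht
        have a3 := AL_norm N hN t
        calc _ ≤ (e₂ * (N ^ a * N ^ b)) * gw τ H t := by gcongr
          _ = _ := by rw [pow_add]
    _ ≤ ∫ t, (e₂ * N ^ (a + b)) * gw τ H t := by
        refine setIntegral_le_integral (hgwI.const_mul _) (Eventually.of_forall fun t => ?_)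
        have := gw_nonneg τ H t hH
        simp only [Pi.zero_apply]
        positivity
    _ = e₂ * N ^ (a + b) := by
        rw [integral_const_mul, gw_integral τ H hH, mul_one]

end

end Pool.Agent.W5h34.SG
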