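import Pool.Agent.W5h34.SG.B

set_option autoImplicit false

/-! The window averages at all frequencies that occur. -/

namespace Pool.Agent.W5h34.SG

open Finset MeasureTheory Filter Topology
open Pool.Agent.H306R2 Pool.Agent.R311.BS
open Pool.Agent.R311.SE (zl zl_cont Aq zA AL AL_cont AL_norm Aq_Dp zA_Dp Sd TT_nonres Aq_bd Sd_nonneg
  l1_zA l1_Aq)

noncomputable section

/-- the data of one window -/
structure WData (q : ℕ) (N X τ H R e₁ e₂ L Ω ρ₀ ρ₁ B η Z : ℝ) (v : ℂ) : Prop where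
  hq : 2 ≤ q
  hN : 1 ≤ N
  hNX : N ^ q ≤ X
  hH : 0 < H
  hR : 0 < R
  he₁ : 0 ≤ e₁
  he₂ : 0 ≤ e₂
  hL : (N ^ q * X) ^ (q + 2) ≤ L
  happ : ∀ t ∈ Set.Ioc (τ - R) (τ + R), ‖zl t - zX X t‖ ≤ e₁
  hv : ‖v‖ = 1
  hfe : ∀ t ∈ Set.Ioc (τ - R) (τ + R), ‖ex Ω t * zl t - v * (starRingEnd ℂ) (zl t)‖ ≤ e₂
  hρ₁ : 0 ≤ ρ₁
  hρ10 : ρ₁ ≤ ρ₀
  hρ₀ : ρ₀ ≤ 1
  hZ : N ^ q * Real.exp 1 ≤ Z
  hρZ : ρ₀ ≤ 1 / Z
  hB0 : 0 ≤ B
  hB : ∀ n : ℕ, 1 ≤ n → (n:ℝ) ≤ N ^ q * X → dv ((q:ℝ) / 2 + 1) n ≤ B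
  hη : 0 < η
  hη1 : η ≤ 1
  hΩ : 0 ≤ Ω
  hnr : Real.log (N ^ q) + 1 ≤ η * Ω / 2

/-- the error without the functional equation -/
def E0 (q : ℕ) (N H R e₁ L Ω ρ₁ B η : ℝ) : ℝ :=
  L * L * gq H ρ₁ + (L * L * (2 * Real.exp (-(R ^ 2 / (2 * H ^ 2)))) + e₁ * N ^ (2 * q - 2)) +
    2 * B ^ 2 * N ^ q * (Real.exp (-(η * Ω / 4)) + 4 * ρ₁ * Real.exp (Ω / 4))

namespace WData

variable {q : ℕ} {N X τ H R e₁ e₂ L Ω ρ₀ ρ₁ B η Z : ℝ} {v : ℂ}
  (h : WData q N X τ H R e₁ e₂ L Ω ρ₀ ρ₁ B η Z v)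

include h

lemma X1 : 1 ≤ X := (one_le_pow₀ h.hN).trans h.hNX

lemma Nk {k : ℕ} (hk : k ≤ q) : N ^ k ≤ N ^ q := pow_le_pow_right₀ h.hN hk

lemma NaX {a b : ℕ} (hb : b ≤ q) : N ^ b ≤ N ^ a * X := by
  have h1 := h.X1
  calc N ^ b ≤ X := (h.Nk hb).trans h.hNX
    _ = 1 * X := (one_mul X).symm
    _ ≤ N ^ a * X := by gcongr; exact one_le_pow₀ h.hN

lemma NaXq {a : ℕ} (ha : a ≤ q) : N ^ a * X ≤ N ^ q * X := by
  have h1 := h.X1
  have h2 := h.Nk ha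
  gcongr

lemma l1z {a : ℕ} (ha : a ≤ q) : l1 (zA N X a) (N ^ a * X) ≤ L := (l1_zA N X h.hN h.X1 a q ha).trans h.hL

lemma l1a {a : ℕ} (ha : a ≤ q) : l1 (Aq N a) (N ^ a) ≤ L := (l1_Aq N X h.hN h.X1 a q ha).trans h.hL

lemma L0 : 0 ≤ L := (l1_nonneg _ _).trans (h.l1a le_rfl)

lemma NB0 : 0 ≤ 2 * B ^ 2 * N ^ q * (Real.exp (-(η * Ω / 4)) + 4 * ρ₁ * Real.exp (Ω / 4)) := by
  have h1 := h.hρ₁
  have h2 : 0 ≤ N := by linarith [h.hN]
  positivity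

lemma ER0 : 0 ≤ E0 q N H R e₁ L Ω ρ₁ B η := by
  have h1 := h.NB0
  have h2 : 0 ≤ N := by linarith [h.hN]
  have h3 := h.he₁
  have h4 := gq_nonneg H ρ₁
  have h5 := h.L0
  unfold E0
  have h6 : 0 ≤ L * L * gq H ρ₁ := by positivity
  have h7 : 0 ≤ L * L * (2 * Real.exp (-(R ^ 2 / (2 * H ^ 2)))) := by positivity
  have h8 : 0 ≤ e₁ * N ^ (2 * q - 2) := by positivity
  linarith

lemma S0 {a b : ℕ} (hb : b ≤ q) : 0 ≤ Sd N X a b := Sd_nonneg N X a b ((h.Nk hb).trans h.hNX)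

lemma kj {a b : ℕ} (ha : a ≤ q) (hb : b ≤ q) (hab : a + b = 2 * q - 2) (ω : ℝ) :
    ‖Kw N τ H R a b ω - TT (zA N X a) (Aq N b) (N ^ a * X) (N ^ b) τ H ω‖ ≤
      L * L * (2 * Real.exp (-(R ^ 2 / (2 * H ^ 2)))) + e₁ * N ^ (2 * q - 2) := by
  have h1 := KJ a b N X τ H R e₁ L ω h.hN (by linarith [h.X1]) h.hH h.hR.le h.he₁ (h.l1z ha) (h.l1a hb) h.happ
  rw [hab] at h1
  exact h1

lemma K_zero {a b : ℕ} (ha : a ≤ q) (hb : b ≤ q) (hab : a + b = 2 * q - 2) :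
    ‖Kw N τ H R a b 0 - ((Sd N X a b : ℝ) : ℂ)‖ ≤ E0 q N H R e₁ L Ω ρ₁ B η := by
  have h1 := h.kj ha hb hab 0
  have h2 := zero_freq (zA N X a) (Aq N b) (N ^ a * X) (N ^ b) Z ρ₀ τ H (one_le_pow₀ h.hN) (h.NaX hb)
    (h.hρ₁.trans h.hρ10) h.hρ₀ ((mul_le_mul_of_nonneg_right (h.Nk hb) (Real.exp_pos 1).le).trans h.hZ) h.hρZ
  have h3 : l1 (zA N X a) (N ^ a * X) * l1 (Aq N b) (N ^ b) * gq H ρ₀ ≤ L * L * gq H ρ₁ := by
    have h4 : gq H ρ₀ ≤ gq H ρ₁ := gq_far H ρ₀ ρ₁ h.hρ₁ (h.hρ10.trans (le_abs_self _))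
    have h5 := h.l1z ha
    have h6 := h.l1a hb
    have h7 := gq_nonneg H ρ₀
    have h8 := l1_nonneg (zA N X a) (N ^ a * X)
    have h9 := l1_nonneg (Aq N b) (N ^ b)
    have h10 := h.L0
    gcongr
  have h4 := h.NB0
  have h5 : (∑ n ∈ Icc 1 ⌊N ^ b⌋₊, zA N X a n * Aq N b n / n : ℝ) = Sd N X a b := rfl
  rw [h5] at h2
  have e : Kw N τ H R a b 0 - ((Sd N X a b : ℝ) : ℂ) =
      (Kw N τ H R a b 0 - TT (zA N X a) (Aq N b) (N ^ a * X) (N ^ b) τ H 0) +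
      (TT (zA N X a) (Aq N b) (N ^ a * X) (N ^ b) τ H 0 - ((Sd N X a b : ℝ) : ℂ)) := by ring
  rw [e]
  refine (norm_add_le _ _).trans ?_
  unfold E0
  linarith

lemma K_low {a b : ℕ} (ha : a ≤ q) (hb : b ≤ q) (hab : a + b = 2 * q - 2) {β : ℝ}
    (hβ : β ≤ -η ∨ (η ≤ β ∧ β ≤ 1)) :
    ‖Kw N τ H R a b (β * Ω / 2)‖ ≤ E0 q N H R e₁ L Ω ρ₁ B η := by
  have h1 := h.kj ha hb hab (β * Ω / 2)
  have hLL : l1 (zA N X a) (N ^ a * X) * l1 (Aq N b) (N ^ b) ≤ L * L :=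
    mul_le_mul (h.l1z ha) (h.l1a hb) (l1_nonneg _ _) h.L0
  have hN0 : 0 < N := by linarith [h.hN]
  have hNB := h.NB0
  have hΩ := h.hΩ
  have h2 : ‖TT (zA N X a) (Aq N b) (N ^ a * X) (N ^ b) τ H (β * Ω / 2)‖ ≤ L * L * gq H ρ₁ +
      2 * B ^ 2 * N ^ q * (Real.exp (-(η * Ω / 4)) + 4 * ρ₁ * Real.exp (Ω / 4)) := by
    rcases hβ with hβ | ⟨hβ1, hβ2⟩
    · refine (TT_nonres _ _ _ _ τ H _ ?_).trans ?_
      · intro n l hn _ hl hlY
        have h3 : Real.log l ≤ Real.log (N ^ q) :=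
          Real.log_le_log (by exact_mod_cast hl) (hlY.trans (h.Nk hb))
        have h4 : 0 ≤ Real.log n := Real.log_nonneg (by exact_mod_cast hn)
        have h5 := h.hnr
        have h6 : β * Ω / 2 ≤ -(η * Ω / 2) := by nlinarith
        rw [abs_of_nonpos (by linarith)]
        linarith
      · have h3 : gq H 1 ≤ gq H ρ₁ := gq_far H 1 ρ₁ h.hρ₁ (by
          rw [abs_one]; exact h.hρ10.trans h.hρ₀)
        have h4 := gq_nonneg H 1
        have h5 : l1 (zA N X a) (N ^ a * X) * l1 (Aq N b) (N ^ b) * gq H 1 ≤ L * L * gq H ρ₁ :=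
          mul_le_mul hLL h3 h4 (by have := h.L0; positivity)
        linarith
    · refine (TT_le _ _ _ _ τ H ρ₁ _ h.hρ₁).trans ?_
      have h3 := NN_res (zA N X a) (Aq N b) (N ^ a * X) (N ^ b) ρ₁ (β * Ω / 2) B (one_le_pow₀ h.hN) h.hρ₁
        (h.hρ10.trans h.hρ₀) h.hB0 (fun n hn hnX => by
          have h4 := zA_bd' N X a n
          rw [abs_of_nonneg h4.1]
          refine h4.2.trans ((dv_mono (by positivity) ?_ n).trans (h.hB n hn (hnX.trans (h.NaXq ha))))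
          have : (a:ℝ) ≤ q := by exact_mod_cast ha
          linarith) (fun n hn hnX => by
          have h4 := Aq_bd N b n
          rw [abs_of_nonneg h4.1]
          refine h4.2.trans ((dv_mono (by positivity) ?_ n).trans (h.hB n hn (hnX.trans (h.NaX hb))))
          have : (b:ℝ) ≤ q := by exact_mod_cast hb
          linarith)
      have h4 : l1 (zA N X a) (N ^ a * X) * l1 (Aq N b) (N ^ b) * gq H ρ₁ ≤ L * L * gq H ρ₁ :=
        mul_le_mul_of_nonneg_right hLL (gq_nonneg _ _)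
      have h5 : Real.exp (-(β * Ω / 2 / 2)) ≤ Real.exp (-(η * Ω / 4)) := by
        apply Real.exp_le_exp.mpr
        nlinarith
      have h6 : Real.exp (β * Ω / 2 / 2) ≤ Real.exp (Ω / 4) := by
        apply Real.exp_le_exp.mpr
        nlinarith
      have h7 := h.Nk hb
      have h8 := h.hρ₁
      have h9 : 2 * B ^ 2 * N ^ b * (Real.exp (-(β * Ω / 2 / 2)) + 4 * ρ₁ * Real.exp (β * Ω / 2 / 2)) ≤
          2 * B ^ 2 * N ^ q * (Real.exp (-(η * Ω / 4)) + 4 * ρ₁ * Real.exp (Ω / 4)) := by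
        gcongr
      linarith
  have e : Kw N τ H R a b (β * Ω / 2) =
      (Kw N τ H R a b (β * Ω / 2) - TT (zA N X a) (Aq N b) (N ^ a * X) (N ^ b) τ H (β * Ω / 2)) +
      TT (zA N X a) (Aq N b) (N ^ a * X) (N ^ b) τ H (β * Ω / 2) := by ring
  rw [e]
  refine (norm_add_le _ _).trans ?_
  unfold E0
  linarith

lemma K_all {a b : ℕ} (ha : a ≤ q) (hb : b ≤ q) (hab : a + b = 2 * q - 2) {β : ℝ}
    (h0 : η ≤ |β|) (h2 : β = 2 ∨ η ≤ |β - 2|) :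
    ‖Kw N τ H R a b (β * Ω / 2)‖ ≤ Sd N X b a + (E0 q N H R e₁ L Ω ρ₁ B η + e₂ * N ^ (2 * q - 2)) := by
  have hN0 : 0 < N := by linarith [h.hN]
  have hS := h.S0 (a := b) ha
  have he : 0 ≤ e₂ * N ^ (2 * q - 2) := by
    have := h.he₂
    positivity
  have hE := h.ER0
  have hη := h.hη
  have hη1 := h.hη1
  rcases le_or_gt β 1 with hb1 | hb1
  · have hβ : β ≤ -η ∨ (η ≤ β ∧ β ≤ 1) := by
      rcases le_or_gt β 0 with h3 | h3
      · left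
        rw [abs_of_nonpos h3] at h0
        linarith
      · right
        rw [abs_of_pos h3] at h0
        exact ⟨h0, hb1⟩
    have h4 := h.K_low ha hb hab hβ
    linarith
  · have hk := KFE a b N τ H R e₂ Ω (β * Ω / 2) v h.hN h.hH h.he₂ h.hfe
    rw [hab] at hk
    have hω : Ω - β * Ω / 2 = (2 - β) * Ω / 2 := by ring
    rw [hω] at hk
    have hn : ‖v * (starRingEnd ℂ) (Kw N τ H R b a ((2 - β) * Ω / 2))‖ = ‖Kw N τ H R b a ((2 - β) * Ω / 2)‖ := by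
      rw [norm_mul, RCLike.norm_conj, h.hv, one_mul]
    have h3 : ‖Kw N τ H R a b (β * Ω / 2)‖ ≤ ‖Kw N τ H R b a ((2 - β) * Ω / 2)‖ + e₂ * N ^ (2 * q - 2) := by
      have h4 := norm_sub_norm_le (Kw N τ H R a b (β * Ω / 2))
        (v * (starRingEnd ℂ) (Kw N τ H R b a ((2 - β) * Ω / 2)))
      rw [hn] at h4
      linarith
    have h4 : ‖Kw N τ H R b a ((2 - β) * Ω / 2)‖ ≤ Sd N X b a + E0 q N H R e₁ L Ω ρ₁ B η := by
      rcases h2 with h2 | h2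
      · rw [h2]
        have h5 := h.K_zero hb ha (by omega)
        have e0 : (2 - 2 : ℝ) * Ω / 2 = 0 := by ring
        rw [e0]
        have h6 := norm_sub_norm_le (Kw N τ H R b a 0) ((Sd N X b a : ℝ) : ℂ)
        rw [Complex.norm_real, Real.norm_of_nonneg hS] at h6
        linarith
      · have hβ : 2 - β ≤ -η ∨ (η ≤ 2 - β ∧ 2 - β ≤ 1) := by
          rcases le_or_gt (β - 2) 0 with h3 | h3
          · right
            rw [abs_of_nonpos h3] at h2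
            constructor <;> linarith
          · left
            rw [abs_of_pos h3] at h2
            linarith
        have h5 := h.K_low hb ha (by omega) hβ
        linarith
    linarith

end WData

/-- frequencies in an arithmetic progression are separated from any point -/
lemma sep (l x : ℝ) (hl : 0 < l) : ∃ η : ℝ, 0 < η ∧ ∀ m : ℤ, (m:ℝ) * l = x ∨ η ≤ |(m:ℝ) * l - x| := by
  set y := x / l with hy
  have hx : x = y * l := by rw [hy]; field_simp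
  by_cases h : y = round y
  · refine ⟨l, hl, fun m => ?_⟩
    by_cases hm : m = round y
    · left; rw [hx, hm, ← h]
    · right
      have h1 : (m:ℝ) * l - x = ((m - round y : ℤ) : ℝ) * l := by
        rw [hx, h]
        push_cast
        simp
        ring
      rw [h1, abs_mul, abs_of_pos hl]
      have h2 : (1:ℝ) ≤ |((m - round y : ℤ) : ℝ)| := by
        have h3 : 1 ≤ |m - round y| := Int.one_le_abs (sub_ne_zero.mpr hm)
        exact_mod_cast h3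
      nlinarith
  · have hd : 0 < |y - round y| := abs_pos.mpr (sub_ne_zero.mpr h)
    refine ⟨|y - round y| * l, by positivity, fun m => ?_⟩
    right
    have h1 : (m:ℝ) * l - x = (m - y) * l := by rw [hx]; ring
    rw [h1, abs_mul, abs_of_pos hl]
    have h2 := round_le y m
    rw [abs_sub_comm y m] at h2
    gcongr

end

end Pool.Agent.W5h34.SG
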