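import Pool.Agent.W5h34.SG.C

set_option autoImplicit false

/-! The core inequality in one window. -/

namespace Pool.Agent.W5h34.SG

open Finset MeasureTheory Filter Topology
open Pool.Agent.H306R2 Pool.Agent.R311.BS
open Pool.Agent.R311.SE (zl zl_cont Aq zA AL AL_cont AL_norm Aq_Dp zA_Dp Sd TT_nonres Aq_bd Sd_nonneg
  l1_zA l1_Aq Wk Wk_nonneg Wk_le Wk_cont Wk_eq CW CW_norm sq_mean)

noncomputable section

/-- the total error of one average -/
def Er (q : ℕ) (N H R e₁ e₂ L Ω ρ₁ B η : ℝ) : ℝ := E0 q N H R e₁ L Ω ρ₁ B η + e₂ * N ^ (2 * q - 2)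

lemma CW_sum (D : ℕ) {δ : ℝ} (hδ : 0 ≤ δ) (hδ1 : δ ≤ 1) (ψ : ℝ) (M : Finset ℤ) :
    ∑ m ∈ M, ‖CW D δ ψ m‖ ≤ Lam := by
  refine le_trans (sum_le_sum fun m _ => ?_) (sum_lam_le M)
  rw [CW_norm]; exact cD_le D δ hδ hδ1 m

/-- expansion of an average against the kernel and one more exponential -/
lemma W_exp (D : ℕ) (δ l Ω ψ : ℝ) (N τ H R : ℝ) (a b : ℕ) (x : ℝ) :
    ∫ t in Set.Ioc (τ - R) (τ + R), ((Wk D δ (l * Ω / 2) ψ t : ℝ) : ℂ) * KF N τ H a b (x * Ω / 2) t =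
      ∑ m ∈ Icc (-(D:ℤ)) D, CW D δ ψ m * Kw N τ H R a b ((m * l + x) * Ω / 2) := by
  have h1 : ∀ t : ℝ, ((Wk D δ (l * Ω / 2) ψ t : ℝ) : ℂ) * KF N τ H a b (x * Ω / 2) t =
      ∑ m ∈ Icc (-(D:ℤ)) D, CW D δ ψ m * KF N τ H a b ((m * l + x) * Ω / 2) t := by
    intro t
    rw [Wk_eq, sum_mul]
    refine sum_congr rfl fun m _ => ?_
    unfold KF
    have e1 : ex ((m * l + x) * Ω / 2) t = ex (m * (l * Ω / 2)) t * ex (x * Ω / 2) t := by
      rw [← ex_add]
      congr 1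
      ring
    rw [e1]
    ring
  simp only [h1]
  rw [integral_finsetSum _ fun m _ => ((cI _ (KF_cont N τ H a b _)).const_mul _)]
  refine sum_congr rfl fun m _ => ?_
  rw [integral_const_mul]
  rfl

section
variable {q : ℕ} {N X τ H R e₁ e₂ L Ω ρ₀ ρ₁ B η Z : ℝ} {v : ℂ}
  (h : WData q N X τ H R e₁ e₂ L Ω ρ₀ ρ₁ B η Z v)

include h

lemma Er0 : 0 ≤ Er q N H R e₁ e₂ L Ω ρ₁ B η := by
  have h1 := h.ER0
  have h2 : 0 ≤ N := by linarith [h.hN]
  have h3 := h.he₂
  unfold Er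
  positivity

/-- the first average -/
lemma avA (D : ℕ) {δ l : ℝ} (hδ : 0 ≤ δ) (hδ1 : δ ≤ 1) (ψ : ℝ) (hl : 0 < l)
    (hs0 : ∀ m : ℤ, (m:ℝ) * l = 0 ∨ η ≤ |(m:ℝ) * l - 0|)
    (hs2 : ∀ m : ℤ, (m:ℝ) * l = 2 ∨ η ≤ |(m:ℝ) * l - 2|) :
    ‖(∫ t in Set.Ioc (τ - R) (τ + R), ((Wk D δ (l * Ω / 2) ψ t : ℝ) : ℂ) *
        KF N τ H (q - 2) q (0 * Ω / 2) t) - ((δ ^ 2 * Sd N X (q - 2) q : ℝ) : ℂ)‖ ≤
      Lam * (Sd N X q (q - 2) + Er q N H R e₁ e₂ L Ω ρ₁ B η) := by
  have hq := h.hq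
  have hE := Er0 h
  have hS := h.S0 (a := q) (b := q - 2) (by omega)
  rw [W_exp]
  have h0mem : (0:ℤ) ∈ Icc (-(D:ℤ)) D := by rw [mem_Icc]; constructor <;> omega
  have e0 : CW D δ ψ 0 = ((δ ^ 2 : ℝ) : ℂ) := by unfold CW; rw [cD_zero]; simp
  have e1 : (∑ m ∈ Icc (-(D:ℤ)) D, CW D δ ψ m * Kw N τ H R (q - 2) q ((m * l + 0) * Ω / 2)) -
      ((δ ^ 2 * Sd N X (q - 2) q : ℝ) : ℂ) =
      ∑ m ∈ Icc (-(D:ℤ)) D, CW D δ ψ m * (Kw N τ H R (q - 2) q ((m * l + 0) * Ω / 2) -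
          if m = 0 then ((Sd N X (q - 2) q : ℝ) : ℂ) else 0) := by
    simp only [mul_sub, sum_sub_distrib]
    congr 1
    simp only [mul_ite, mul_zero]
    rw [sum_ite_eq' _ 0 (fun m => CW D δ ψ m * ((Sd N X (q - 2) q : ℝ) : ℂ)), if_pos h0mem, e0]
    push_cast
    rfl
  rw [e1]
  have h1 : ∀ m ∈ Icc (-(D:ℤ)) D, ‖CW D δ ψ m * (Kw N τ H R (q - 2) q ((m * l + 0) * Ω / 2) -
          if m = 0 then ((Sd N X (q - 2) q : ℝ) : ℂ) else 0)‖ ≤
      ‖CW D δ ψ m‖ * (Sd N X q (q - 2) + Er q N H R e₁ e₂ L Ω ρ₁ B η) := by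
    intro m _
    rw [norm_mul]
    refine mul_le_mul_of_nonneg_left ?_ (norm_nonneg _)
    by_cases hm : m = 0
    · rw [if_pos hm, hm]
      have h2 := h.K_zero (a := q - 2) (b := q) (by omega) le_rfl (by omega)
      have e2 : (((0:ℤ) : ℝ) * l + 0) * Ω / 2 = 0 := by push_cast; ring
      rw [e2]
      unfold Er at *
      have h3 : 0 ≤ e₂ * N ^ (2 * q - 2) := by
        have h2 : 0 ≤ N := by linarith [h.hN]
        have h3 := h.he₂
        positivity
      linarith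
    · rw [if_neg hm, sub_zero, add_zero]
      refine h.K_all (a := q - 2) (b := q) (by omega) le_rfl (by omega) ?_ (hs2 m)
      rcases hs0 m with h3 | h3
      · exfalso
        have : (m:ℝ) ≠ 0 := by exact_mod_cast hm
        exact (mul_ne_zero this hl.ne') h3
      · rwa [sub_zero] at h3
  refine (norm_sum_le_of_le _ h1).trans ?_
  rw [← sum_mul]
  exact mul_le_mul_of_nonneg_right (CW_sum D hδ hδ1 ψ _) (by linarith)

/-- the second average -/
lemma avB (D : ℕ) {δ l : ℝ} (hδ : 0 ≤ δ) (hδ1 : δ ≤ 1) (ψ : ℝ)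
    (hs1 : ∀ m : ℤ, (m:ℝ) * l = 1 ∨ η ≤ |(m:ℝ) * l - 1|)
    (hsn : ∀ m : ℤ, (m:ℝ) * l = -1 ∨ η ≤ |(m:ℝ) * l - (-1)|) :
    ‖∫ t in Set.Ioc (τ - R) (τ + R), ((Wk D δ (l * Ω / 2) ψ t : ℝ) : ℂ) *
        KF N τ H (q - 1) (q - 1) (1 * Ω / 2) t‖ ≤
      Lam * (Sd N X (q - 1) (q - 1) + Er q N H R e₁ e₂ L Ω ρ₁ B η) := by
  have hq := h.hq
  have hE := Er0 h
  have hS := h.S0 (a := q - 1) (b := q - 1) (by omega)
  have hee : 0 ≤ e₂ * N ^ (2 * q - 2) := by
    have h2 : 0 ≤ N := by linarith [h.hN]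
    have h3 := h.he₂
    positivity
  rw [W_exp]
  have h1 : ∀ m ∈ Icc (-(D:ℤ)) D, ‖CW D δ ψ m * Kw N τ H R (q - 1) (q - 1) ((m * l + 1) * Ω / 2)‖ ≤
      ‖CW D δ ψ m‖ * (Sd N X (q - 1) (q - 1) + Er q N H R e₁ e₂ L Ω ρ₁ B η) := by
    intro m _
    rw [norm_mul]
    refine mul_le_mul_of_nonneg_left ?_ (norm_nonneg _)
    rcases hsn m with h3 | h3
    · have e2 : ((m : ℝ) * l + 1) * Ω / 2 = 0 := by rw [h3]; ring
      rw [e2]
      have h2 := h.K_zero (a := q - 1) (b := q - 1) (by omega) (by omega) (by omega)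
      have h6 := norm_sub_norm_le (Kw N τ H R (q - 1) (q - 1) 0) ((Sd N X (q - 1) (q - 1) : ℝ) : ℂ)
      rw [Complex.norm_real, Real.norm_of_nonneg hS] at h6
      unfold Er at *
      linarith
    · refine h.K_all (a := q - 1) (b := q - 1) (by omega) (by omega) (by omega) ?_ ?_
      · rwa [sub_neg_eq_add] at h3
      · rcases hs1 m with h4 | h4
        · left; rw [h4]; norm_num
        · right
          have : (m:ℝ) * l + 1 - 2 = (m:ℝ) * l - 1 := by ring
          rw [this]; exact h4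
  refine (norm_sum_le_of_le _ h1).trans ?_
  rw [← sum_mul]
  exact mul_le_mul_of_nonneg_right (CW_sum D hδ hδ1 ψ _) (by linarith)

end

theorem core {q : ℕ} {N X τ H R e₁ e₂ L Ω ρ₀ ρ₁ B η Z : ℝ} {v : ℂ}
    (h : WData q N X τ H R e₁ e₂ L Ω ρ₀ ρ₁ B η Z v) (D : ℕ) (hD : 1 ≤ D) {δ l : ℝ} (hδ : 0 ≤ δ)
    (hδ1 : δ ≤ 1 / 4) (ψ : ℝ) (hl : 0 < l) (w Zb μ : ℝ) (hμ : 0 < μ) (c₀ : ℂ) (hc₀ : ‖c₀‖ = 1)
    (s : ℝ) (hs : s = 1 ∨ s = -1)
    (hs0 : ∀ m : ℤ, (m:ℝ) * l = 0 ∨ η ≤ |(m:ℝ) * l - 0|)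
    (hs2 : ∀ m : ℤ, (m:ℝ) * l = 2 ∨ η ≤ |(m:ℝ) * l - 2|)
    (hs1 : ∀ m : ℤ, (m:ℝ) * l = 1 ∨ η ≤ |(m:ℝ) * l - 1|)
    (hsn : ∀ m : ℤ, (m:ℝ) * l = -1 ∨ η ≤ |(m:ℝ) * l - (-1)|)
    (hEE : ∀ t ∈ Set.Ioc (τ - R) (τ + R), ‖EE t - c₀ * ex (Ω / 2) t‖ ≤ w)
    (ht1 : ∀ t ∈ Set.Ioc (τ - R) (τ + R), 1 ≤ t)
    (hZb : ∀ t ∈ Set.Ioc (τ - R) (τ + R), ‖zl t‖ ≤ Zb)
    (S : Set ℝ) (hSm : MeasurableSet S)
    (hS : ∀ t ∈ Set.Ioc (τ - R) (τ + R), 0 < s * (EE t * zl t).re → ∀ n : ℤ,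
      |((l * Ω / 2) * t + ψ) / (2 * Real.pi) - n| < 2 * δ → t ∈ S) :
    δ ^ 2 * Sd N X (q - 2) q - Lam * (Sd N X q (q - 2) + Er q N H R e₁ e₂ L Ω ρ₁ B η) -
        (Lam * (Sd N X (q - 1) (q - 1) + Er q N H R e₁ e₂ L Ω ρ₁ B η) + Lam * w * Zb * N ^ (2 * q - 2)) -
        2 * (2 * D * Real.cos (Real.pi * δ) ^ (2 * D)) * Zb * N ^ (2 * q - 2) ≤
      2 * (Lam * (2 * μ * ((∑ n ∈ Icc 1 ⌊N ^ q⌋₊, dv ((q:ℝ) / 2) n * dv ((q:ℝ) / 2) n / n) +
          L * L * gq H ρ₀)) + Lam * (μ⁻¹) ^ (q - 1) *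
        ∫ t in Set.Ioc (τ - R) (τ + R) ∩ S, ‖zl t‖ ^ q * gw τ H t) := by
  have hq := h.hq
  have hN := h.hN
  have hH := h.hH
  have hR := h.hR
  have hLam := Lam_ge_one
  have hδ1' : δ ≤ 1 := by linarith
  set I := Set.Ioc (τ - R) (τ + R) with hI
  have hImeas : MeasurableSet I := measurableSet_Ioc
  have hgwI := gw_integrable τ H hH
  have htau : τ ∈ I := by
    rw [hI]
    constructor <;> linarith
  have hZb0 : 0 ≤ Zb := (norm_nonneg _).trans (hZb τ htau)
  have hw0 : 0 ≤ w := (norm_nonneg _).trans (hEE τ htau)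
  have hN0 : 0 ≤ N := by linarith
  -- continuity
  have c1 := AL_cont N
  have c4 := zl_cont
  have c7 : Continuous fun t : ℝ => gw τ H t := gw_continuous τ H
  have c9 : Continuous fun t : ℝ => Wk D δ (l * Ω / 2) ψ t := Wk_cont D δ (l * Ω / 2) ψ
  have c10 : Continuous fun t : ℝ => (EE t * zl t).re := Complex.continuous_re.comp (EE_cont.mul c4)
  have c11 : Continuous fun t : ℝ => ((Wk D δ (l * Ω / 2) ψ t : ℝ) : ℂ) := Complex.continuous_ofReal.comp c9
  set W := Wk D δ (l * Ω / 2) ψ with hW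
  have hW0 : ∀ t, 0 ≤ W t := fun t => Wk_nonneg D hδ (l * Ω / 2) ψ t
  have hW1 : ∀ t, W t ≤ Lam := fun t => Wk_le D hδ hδ1' (l * Ω / 2) ψ t
  set FM : ℝ → ℝ := fun t => W t * ‖zl t‖ * ‖AL N t‖ ^ (2 * q - 2) * gw τ H t with hFM
  set FR : ℝ → ℝ := fun t => W t * (s * (EE t * zl t).re) * ‖AL N t‖ ^ (2 * q - 2) * gw τ H t with hFR
  have cFM : Continuous FM := by rw [hFM]; fun_prop
  have cFR : Continuous FR := by rw [hFR]; fun_prop
  have hFM0 : ∀ t, 0 ≤ FM t := by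
    intro t
    have a1 := hW0 t
    have a2 := gw_nonneg τ H t hH
    rw [hFM]; simp only
    positivity
  set MW := ∫ t in I, FM t with hMW
  obtain ⟨Err, hErr⟩ : ∃ Err : ℝ, Err = Er q N H R e₁ e₂ L Ω ρ₁ B η := ⟨_, rfl⟩
  have hMW1 : δ ^ 2 * Sd N X (q - 2) q - Lam * (Sd N X q (q - 2) + Err) ≤ MW := by
    have h1 := avA h D hδ hδ1' ψ hl hs0 hs2
    rw [← hErr, ← hI, ← hW] at h1
    set J := ∫ t in I, ((W t : ℝ) : ℂ) * KF N τ H (q - 2) q (0 * Ω / 2) t with hJ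
    have h2 : ‖J‖ ≤ MW := by
      refine (norm_integral_le_integral_norm _).trans (le_of_eq ?_)
      refine setIntegral_congr_fun hImeas fun t _ => ?_
      have a2 := gw_nonneg τ H t hH
      unfold KF
      rw [norm_mul, norm_mul, norm_mul, norm_mul, norm_mul, RCLike.norm_conj, norm_pow, norm_pow,
        Complex.norm_real, Complex.norm_real, Real.norm_of_nonneg a2, Real.norm_of_nonneg (hW0 t), hFM,
        ex_norm]
      simp only
      have e : ‖AL N t‖ ^ (2 * q - 2) = ‖AL N t‖ ^ (q - 2) * ‖AL N t‖ ^ q := by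
        rw [← pow_add]; congr 1; omega
      rw [e]; ring
    have h3 : 0 ≤ δ ^ 2 * Sd N X (q - 2) q := mul_nonneg (by positivity) (h.S0 le_rfl)
    have h6 := norm_sub_norm_le ((δ ^ 2 * Sd N X (q - 2) q : ℝ) : ℂ) J
    rw [norm_sub_rev, Complex.norm_real, Real.norm_of_nonneg h3] at h6
    linarith
  have hFR1 : -(Lam * (Sd N X (q - 1) (q - 1) + Err) + Lam * w * Zb * N ^ (2 * q - 2)) ≤ ∫ t in I, FR t := by
    have h1 := avB h D hδ hδ1' ψ hs1 hsn
    rw [← hErr, ← hI, ← hW] at h1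
    set J := ∫ t in I, ((W t : ℝ) : ℂ) * KF N τ H (q - 1) (q - 1) (1 * Ω / 2) t with hJ
    -- exact integrand
    set FC : ℝ → ℂ := fun t => ((W t : ℝ) : ℂ) * (EE t * zl t) * ((‖AL N t‖ ^ (2 * q - 2) * gw τ H t : ℝ) : ℂ)
      with hFC
    have c12 : Continuous fun t : ℝ => ((‖AL N t‖ ^ (2 * q - 2) * gw τ H t : ℝ) : ℂ) :=
      Complex.continuous_ofReal.comp ((c1.norm.pow _).mul c7)
    have cFC : Continuous FC := by
      rw [hFC]
      have := EE_cont
      fun_prop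
    have h2 : ∫ t in I, FR t = s * (∫ t in I, FC t).re := by
      have h3 := integral_re (cI (τ := τ) (R := R) FC cFC)
      have h4 : ∀ z : ℂ, RCLike.re z = z.re := fun z => rfl
      simp only [h4] at h3
      rw [← hI] at h3
      rw [← h3, ← integral_const_mul]
      refine setIntegral_congr_fun hImeas fun t _ => ?_
      have e1 : FC t = ((W t * (‖AL N t‖ ^ (2 * q - 2) * gw τ H t) : ℝ) : ℂ) * (EE t * zl t) := by
        rw [hFC]; simp only; push_cast; ring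
      simp only [e1, Complex.re_ofReal_mul, hFR]
      ring
    have h3 : ‖(∫ t in I, FC t) - c₀ * J‖ ≤ Lam * w * Zb * N ^ (2 * q - 2) := by
      have c13 : Continuous fun t => c₀ * (((W t : ℝ) : ℂ) * KF N τ H (q - 1) (q - 1) (1 * Ω / 2) t) :=
        continuous_const.mul (c11.mul (KF_cont N τ H _ _ _))
      rw [hJ, ← integral_const_mul, ← integral_sub (cI FC cFC) (cI _ c13)]
      calc ‖∫ t in I, (FC t - c₀ * (((W t : ℝ) : ℂ) * KF N τ H (q - 1) (q - 1) (1 * Ω / 2) t))‖ ≤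
          ∫ t in I, ‖FC t - c₀ * (((W t : ℝ) : ℂ) * KF N τ H (q - 1) (q - 1) (1 * Ω / 2) t)‖ :=
            norm_integral_le_integral_norm _
        _ ≤ ∫ t in I, (Lam * w * Zb * N ^ (2 * q - 2)) * gw τ H t := by
            refine setIntegral_mono_on (cI _ (cFC.sub c13)).norm
              (hgwI.const_mul _).integrableOn hImeas fun t ht => ?_
            have e2 : AL N t ^ (q - 1) * (starRingEnd ℂ) (AL N t ^ (q - 1)) = ((‖AL N t‖ ^ (2 * q - 2) : ℝ) : ℂ) := by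
              rw [Complex.mul_conj, Complex.normSq_eq_norm_sq, norm_pow, ← pow_mul]
              congr 3
              omega
            have e1 : FC t - c₀ * (((W t : ℝ) : ℂ) * KF N τ H (q - 1) (q - 1) (1 * Ω / 2) t) =
                ((W t : ℝ) : ℂ) * ((EE t - c₀ * ex (Ω / 2) t) * zl t) *
                  (((‖AL N t‖ ^ (2 * q - 2) : ℝ) : ℂ) * ((gw τ H t : ℝ) : ℂ)) := by
              rw [hFC]
              simp only
              unfold KF
              rw [one_mul]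
              have e3 : zl t * AL N t ^ (q - 1) * (starRingEnd ℂ) (AL N t ^ (q - 1)) =
                zl t * ((‖AL N t‖ ^ (2 * q - 2) : ℝ) : ℂ) := by rw [mul_assoc, e2]
              rw [e3]
              push_cast
              ring
            have hg := gw_nonneg τ H t hH
            have hp : 0 ≤ ‖AL N t‖ ^ (2 * q - 2) := by positivity
            rw [e1, norm_mul, norm_mul, norm_mul, norm_mul, Complex.norm_real, Complex.norm_real,
              Complex.norm_real, Real.norm_of_nonneg hg, Real.norm_of_nonneg (hW0 t), Real.norm_of_nonneg hp]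
            have a1 := hEE t ht
            have a2 := hZb t ht
            have a3 := pow_le_pow_left₀ (norm_nonneg _) (AL_norm N hN t) (2 * q - 2)
            have a4 := hW1 t
            calc _ ≤ Lam * (w * Zb) * (N ^ (2 * q - 2) * gw τ H t) := by gcongr
              _ = _ := by ring
        _ ≤ ∫ t, (Lam * w * Zb * N ^ (2 * q - 2)) * gw τ H t := by
            refine setIntegral_le_integral (hgwI.const_mul _) (Eventually.of_forall fun t => ?_)
            have := gw_nonneg τ H t hH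
            simp only [Pi.zero_apply]
            positivity
        _ = Lam * w * Zb * N ^ (2 * q - 2) := by
            rw [integral_const_mul, gw_integral τ H hH, mul_one]
    have h4 : ‖∫ t in I, FC t‖ ≤ Lam * (Sd N X (q - 1) (q - 1) + Err) + Lam * w * Zb * N ^ (2 * q - 2) := by
      have h5 := norm_sub_norm_le (∫ t in I, FC t) (c₀ * J)
      rw [norm_mul, hc₀, one_mul] at h5
      linarith
    have h5 : |(∫ t in I, FC t).re| ≤ ‖∫ t in I, FC t‖ := Complex.abs_re_le_norm _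
    rw [h2]
    have h6 := abs_le.mp (h5.trans h4)
    rcases hs with hs | hs
    · rw [hs, one_mul]; exact h6.1
    · rw [hs]; linarith [h6.2]
  -- the tail of the kernel
  set TL := 2 * (D:ℝ) * Real.cos (Real.pi * δ) ^ (2 * D) with hTL
  have hcos : 0 ≤ Real.cos (Real.pi * δ) := by
    apply Real.cos_nonneg_of_mem_Icc
    constructor <;> nlinarith [Real.pi_pos]
  have hTL0 : 0 ≤ TL := by positivity
  have hsum : ∫ t in I, (FM t + FR t) ≤ 2 * (∫ t in I ∩ S, FM t) + 2 * TL * Zb * N ^ (2 * q - 2) := by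
    have e1 : ∫ t in I ∩ S, FM t = ∫ t in I, S.indicator FM t := by
      rw [integral_indicator hSm, Measure.restrict_restrict hSm, Set.inter_comm]
    have hi1 : IntegrableOn (fun t => S.indicator FM t) I := (cI FM cFM).indicator hSm
    have hi2 : IntegrableOn (fun t => 2 * TL * Zb * N ^ (2 * q - 2) * gw τ H t) I :=
      (hgwI.const_mul _).integrableOn
    calc ∫ t in I, (FM t + FR t) ≤ ∫ t in I, (2 * S.indicator FM t +
          2 * TL * Zb * N ^ (2 * q - 2) * gw τ H t) := by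
          refine setIntegral_mono_on ((cI FM cFM).add (cI FR cFR)) ((hi1.const_mul 2).add hi2) hImeas
            fun t ht => ?_
          have hg := gw_nonneg τ H t hH
          have hw := hW0 t
          have hz := hZb t ht
          have hz0 : 0 ≤ ‖zl t‖ := norm_nonneg _
          have ha := AL_norm N hN t
          have hind : 0 ≤ S.indicator FM t := Set.indicator_nonneg (fun t _ => hFM0 t) t
          have hPow : 0 ≤ ‖AL N t‖ ^ (2 * q - 2) := by positivity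
          have hPow2 : ‖AL N t‖ ^ (2 * q - 2) ≤ N ^ (2 * q - 2) := pow_le_pow_left₀ (norm_nonneg _) ha _
          have habs := EZ_abs (ht1 t ht)
          have hlast : 0 ≤ 2 * TL * Zb * N ^ (2 * q - 2) * gw τ H t := by positivity
          have hFMt : FM t = W t * ‖zl t‖ * ‖AL N t‖ ^ (2 * q - 2) * gw τ H t := rfl
          have hFRt : FR t = W t * (s * (EE t * zl t).re) * ‖AL N t‖ ^ (2 * q - 2) * gw τ H t := rfl
          have hsre : s * (EE t * zl t).re ≤ ‖zl t‖ := by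
            rw [← habs]
            rcases hs with hs | hs
            · rw [hs, one_mul]; exact le_abs_self _
            · rw [hs, neg_one_mul]; exact neg_le_abs _
          have hK : 0 ≤ W t * ‖AL N t‖ ^ (2 * q - 2) * gw τ H t := by positivity
          have hFRle : FR t ≤ FM t := by
            have h2 := mul_le_mul_of_nonneg_left hsre hK
            rw [hFMt, hFRt]
            linarith
          rcases le_or_gt (s * (EE t * zl t).re) 0 with hneg | hpos
          · have h1 : s * (EE t * zl t).re = -‖zl t‖ := by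
              rw [← habs]
              rcases hs with hs | hs
              · rw [hs, one_mul] at hneg ⊢
                rw [abs_of_nonpos hneg, neg_neg]
              · rw [hs, neg_one_mul] at hneg ⊢
                rw [abs_of_nonneg (by linarith)]
            have h2 : FM t + FR t = 0 := by rw [hFMt, hFRt, h1]; ring
            rw [h2]
            linarith
          · by_cases hn : ∃ n : ℤ, |((l * Ω / 2) * t + ψ) / (2 * Real.pi) - n| < 2 * δ
            · obtain ⟨n, hn⟩ := hn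
              have h3 : S.indicator FM t = FM t := Set.indicator_of_mem (hS t ht hpos n hn) FM
              rw [h3]
              linarith
            · have htail : W t ≤ TL := by
                refine FD_tail D hD δ _ hδ hδ1 fun n => ?_
                push Not at hn
                exact hn n
              have h2 : W t * ‖zl t‖ * ‖AL N t‖ ^ (2 * q - 2) * gw τ H t ≤ TL * Zb * N ^ (2 * q - 2) * gw τ H t := by
                gcongr
              rw [← hFMt] at h2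
              linarith
      _ = 2 * (∫ t in I ∩ S, FM t) + ∫ t in I, 2 * TL * Zb * N ^ (2 * q - 2) * gw τ H t := by
          rw [integral_add (hi1.const_mul 2) hi2, integral_const_mul, e1]
      _ ≤ _ := by
          have h1 : ∫ t in I, 2 * TL * Zb * N ^ (2 * q - 2) * gw τ H t ≤ 2 * TL * Zb * N ^ (2 * q - 2) := by
            rw [integral_const_mul]
            have h2 : ∫ t in I, gw τ H t ≤ 1 := by
              rw [← gw_integral τ H hH]
              exact setIntegral_le_integral hgwI (Eventually.of_forall fun t => gw_nonneg τ H t hH)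
            have : 0 ≤ 2 * TL * Zb * N ^ (2 * q - 2) := by positivity
            nlinarith
          linarith
  rw [integral_add (cI FM cFM) (cI FR cFR)] at hsum
  -- Young
  obtain ⟨hV1, hV2⟩ := sq_mean N hN q Z ρ₀ τ H L hH (h.hρ₁.trans h.hρ10) h.hρ₀ h.hZ h.hρZ (h.l1a le_rfl)
  have hG1 : ∫ t in I ∩ S, FM t ≤ Lam * (2 * μ * ∫ t : ℝ, ‖AL N t‖ ^ (2 * q) * gw τ H t) +
      Lam * (μ⁻¹) ^ (q - 1) * ∫ t in I ∩ S, ‖zl t‖ ^ q * gw τ H t := by
    have hIS : MeasurableSet (I ∩ S) := hImeas.inter hSm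
    have hg1 : IntegrableOn (fun t => ‖zl t‖ ^ q * gw τ H t) (I ∩ S) :=
      (cI _ ((c4.norm.pow q).mul c7)).mono_set Set.inter_subset_left
    have hi1 : IntegrableOn (fun t => Lam * (2 * μ) * (‖AL N t‖ ^ (2 * q) * gw τ H t)) (I ∩ S) :=
      (hV1.const_mul _).integrableOn
    have hi2 : IntegrableOn (fun t => Lam * (μ⁻¹) ^ (q - 1) * (‖zl t‖ ^ q * gw τ H t)) (I ∩ S) :=
      hg1.const_mul _
    calc ∫ t in I ∩ S, FM t ≤ ∫ t in I ∩ S, (Lam * (2 * μ) * (‖AL N t‖ ^ (2 * q) * gw τ H t) +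
          Lam * (μ⁻¹) ^ (q - 1) * (‖zl t‖ ^ q * gw τ H t)) := by
          refine setIntegral_mono_on ((cI FM cFM).mono_set Set.inter_subset_left) (hi1.add hi2) hIS
            fun t ht => ?_
          have hg := gw_nonneg τ H t hH
          have hw := hW0 t
          have hw1 := hW1 t
          have hy := young q hq ‖zl t‖ ‖AL N t‖ (‖AL N t‖ ^ q) μ (norm_nonneg _) (norm_nonneg _)
            (by positivity) hμ
          have e1 : ‖zl t‖ * ‖AL N t‖ ^ (q - 2) * ‖AL N t‖ ^ q = ‖zl t‖ * ‖AL N t‖ ^ (2 * q - 2) := by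
            rw [mul_assoc, ← pow_add]; congr 2; omega
          have e2 : (‖AL N t‖ ^ q) ^ 2 = ‖AL N t‖ ^ (2 * q) := by rw [← pow_mul, mul_comm q 2]
          rw [e1, e2] at hy
          have hy0 : 0 ≤ ‖zl t‖ * ‖AL N t‖ ^ (2 * q - 2) := by positivity
          calc FM t = W t * (‖zl t‖ * ‖AL N t‖ ^ (2 * q - 2)) * gw τ H t := by rw [hFM]; ring
            _ ≤ Lam * (μ * (‖AL N t‖ ^ (2 * q) + ‖AL N t‖ ^ (2 * q)) + (μ⁻¹) ^ (q - 1) * ‖zl t‖ ^ q) * gw τ H t := by
                gcongr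
            _ = _ := by ring
      _ = Lam * (2 * μ) * (∫ t in I ∩ S, ‖AL N t‖ ^ (2 * q) * gw τ H t) +
          Lam * (μ⁻¹) ^ (q - 1) * ∫ t in I ∩ S, ‖zl t‖ ^ q * gw τ H t := by
          rw [integral_add hi1 hi2, integral_const_mul, integral_const_mul]
      _ ≤ _ := by
          have h1 : ∫ t in I ∩ S, ‖AL N t‖ ^ (2 * q) * gw τ H t ≤ ∫ t : ℝ, ‖AL N t‖ ^ (2 * q) * gw τ H t := by
            refine setIntegral_le_integral hV1 (Eventually.of_forall fun t => ?_)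
            have hg := gw_nonneg τ H t hH
            simp only [Pi.zero_apply]
            positivity
          have h2 : Lam * (2 * μ) * (∫ t in I ∩ S, ‖AL N t‖ ^ (2 * q) * gw τ H t) ≤
              Lam * (2 * μ) * ∫ t : ℝ, ‖AL N t‖ ^ (2 * q) * gw τ H t := by
            apply mul_le_mul_of_nonneg_left h1
            positivity
          linarith
  have hG2 : Lam * (2 * μ * ∫ t : ℝ, ‖AL N t‖ ^ (2 * q) * gw τ H t) ≤
      Lam * (2 * μ * ((∑ n ∈ Icc 1 ⌊N ^ q⌋₊, dv ((q:ℝ) / 2) n * dv ((q:ℝ) / 2) n / n) + L * L * gq H ρ₀)) := by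
    gcongr
  rw [← hErr]
  have e9 : (∫ t in I, FM t) = MW := rfl
  rw [e9] at hsum
  linarith

end

end Pool.Agent.W5h34.SG
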