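import Pool.Agent.W5h34.SG.D
import Pool.Agent.R311.SE.F
import Pool.Agent.TH158.FM.Main2

set_option autoImplicit false

/-! Choice of the parameters. -/

namespace Pool.Agent.W5h34.SG

open Finset MeasureTheory Filter Topology
open Pool.Agent.H306R2
open Pool.Agent.W188.QS (cp XX)
open Pool.Agent.R311.BS (ex gq FD Lam Lam_ge_one zX ev_small ev_pow ev_rpow_ge
  ev_log_rpow_ge U_lower zX_eq l1 ex_norm ex_add gq_far)
open Pool.Agent.R311.SE (zl zl_cont Sd ev_logpow Sd_upper U_up fe XX_lin app_val Om_val E3_val TL_val E12_val)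

noncomputable section

/-- the set: sign of the completed zeta function and phase in an arithmetic progression -/
def SP (P δ φ s : ℝ) : Set ℝ :=
  {t | 0 < s * (completedRiemannZeta (cp t)).re ∧ ∃ n : ℤ, |vt t - φ - n * P| < δ}

lemma vt_meas : Measurable vt := by
  unfold vt
  fun_prop

lemma SP_meas (P δ φ s : ℝ) : MeasurableSet (SP P δ φ s) := by
  have h1 : SP P δ φ s = {t | 0 < s * (EE t * zl t).re} ∩ ⋃ n : ℤ, {t | |vt t - φ - n * P| < δ} := by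
    ext t
    simp only [SP, Set.mem_setOf_eq, Set.mem_inter_iff, Set.mem_iUnion]
    rw [comp_sign]
  rw [h1]
  refine MeasurableSet.inter ?_ (MeasurableSet.iUnion fun n => ?_)
  · have c : Continuous fun t : ℝ => s * (EE t * zl t).re :=
      continuous_const.mul (Complex.continuous_re.comp (EE_cont.mul zl_cont))
    exact (isOpen_lt continuous_const c).measurableSet
  · have m1 : Measurable fun t : ℝ => |vt t - φ - n * P| :=
      ((vt_meas.sub_const φ).sub_const (n * P)).abs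
    exact measurableSet_lt m1 measurable_const

/-- the functional equation near one height -/
lemma fe_val {τ R Zb : ℝ} (hτ : 100 ≤ τ) (hR : R ≤ τ / 2)
    (hZb : ∀ t ∈ Set.Ioc (τ - R) (τ + R), ‖zl t‖ ≤ Zb) :
    ∃ v : ℂ, ‖v‖ = 1 ∧ ∀ t ∈ Set.Ioc (τ - R) (τ + R),
      ‖ex (Real.log (τ / (2 * Real.pi))) t * zl t - v * (starRingEnd ℂ) (zl t)‖ ≤
        Zb * (R * (28 + 2 * R) / τ) := by
  obtain ⟨-, hn, -, -⟩ := Pool.Agent.W338.QS.qs_line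
  set Ω := Real.log (τ / (2 * Real.pi)) with hΩ
  refine ⟨(starRingEnd ℂ) (XX (cp τ)) * ex Ω τ, ?_, fun t ht => ?_⟩
  · rw [norm_mul, RCLike.norm_conj, hn τ, ex_norm, mul_one]
  have hta : |t - τ| ≤ R := by
    rw [abs_le]; constructor <;> linarith [ht.1, ht.2]
  have ht1 : 1 ≤ t := by linarith [ht.1]
  have h1 := XX_lin hτ hR hta
  have hc : (starRingEnd ℂ) (XX (cp τ)) * XX (cp τ) = 1 := by
    rw [mul_comm, Complex.mul_conj, Complex.normSq_eq_norm_sq, hn τ]; simp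
  have hex : ex Ω τ * ex Ω (t - τ) = ex Ω t := by
    unfold ex
    rw [← Complex.exp_add]
    congr 1
    push_cast
    ring
  have e1 : ex Ω t * zl t - (starRingEnd ℂ) (XX (cp τ)) * ex Ω τ * (starRingEnd ℂ) (zl t) =
      -((starRingEnd ℂ) (XX (cp τ)) * ex Ω τ * ((XX (cp t) - XX (cp τ) * ex Ω (t - τ)) * zl t)) := by
    rw [fe ht1]
    calc _ = (starRingEnd ℂ) (XX (cp τ)) * XX (cp τ) * (ex Ω t * zl t) -
          (starRingEnd ℂ) (XX (cp τ)) * ex Ω τ * (XX (cp t) * zl t) := by rw [hc]; ring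
      _ = (starRingEnd ℂ) (XX (cp τ)) * XX (cp τ) * ((ex Ω τ * ex Ω (t - τ)) * zl t) -
          (starRingEnd ℂ) (XX (cp τ)) * ex Ω τ * (XX (cp t) * zl t) := by rw [hex]
      _ = _ := by ring
  rw [e1, norm_neg, norm_mul, norm_mul, norm_mul, RCLike.norm_conj, hn τ, ex_norm, one_mul, one_mul, mul_comm]
  exact mul_le_mul (hZb t ht) h1 (norm_nonneg _) ((norm_nonneg _).trans (hZb t ht))

/-- the direction near one height -/
lemma EE_val {τ R : ℝ} (hτ : 100 ≤ τ) (hR : R ≤ τ / 2) :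
    ∃ c₀ : ℂ, ‖c₀‖ = 1 ∧ ∀ t ∈ Set.Ioc (τ - R) (τ + R),
      ‖EE t - c₀ * ex (Real.log (τ / (2 * Real.pi)) / 2) t‖ ≤ R * (28 + 2 * R) / τ := by
  set Ω := Real.log (τ / (2 * Real.pi)) with hΩ
  refine ⟨EE τ * ex (-(Ω / 2)) τ, ?_, fun t ht => ?_⟩
  · rw [norm_mul, EE_norm, ex_norm, mul_one]
  have hta : |t - τ| ≤ R := by
    rw [abs_le]; constructor <;> linarith [ht.1, ht.2]
  have h1 := EE_lin hτ hR hta
  have hex : ex (Ω / 2) (t - τ) = ex (-(Ω / 2)) τ * ex (Ω / 2) t := by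
    unfold ex
    rw [← Complex.exp_add]
    congr 1
    push_cast
    ring
  rw [← hΩ, hex, ← mul_assoc] at h1
  exact h1

/-- the phase near one height -/
lemma ph_val {τ R P φ δ δ₀ w : ℝ} (hτ : 100 ≤ τ) (hR : R ≤ τ / 2) (hP : 0 < P) (hδ : 2 * δ * P ≤ δ₀ / 2)
    (hw : w = R * (28 + 2 * R) / τ) (hw1 : w < δ₀ / 2) :
    ∃ ψ : ℝ, ∀ t ∈ Set.Ioc (τ - R) (τ + R), ∀ n : ℤ,
      |((2 * Real.pi / P * Real.log (τ / (2 * Real.pi)) / 2) * t + ψ) / (2 * Real.pi) - n| < 2 * δ →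
      |vt t - φ - n * P| < δ₀ := by
  set Ω := Real.log (τ / (2 * Real.pi)) with hΩ
  refine ⟨2 * Real.pi / P * (vt τ - Ω / 2 * τ - φ), fun t ht n hn => ?_⟩
  have hta : |t - τ| ≤ R := by
    rw [abs_le]; constructor <;> linarith [ht.1, ht.2]
  have h1 := vt_lin hτ hR hta
  rw [← hΩ, ← hw] at h1
  have hpi := Real.pi_ne_zero
  have e1 : ((2 * Real.pi / P * Ω / 2) * t + 2 * Real.pi / P * (vt τ - Ω / 2 * τ - φ)) / (2 * Real.pi) - n =
      ((vt τ + Ω / 2 * (t - τ)) - φ - n * P) / P := by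
    field_simp
    ring
  rw [e1, abs_div, abs_of_pos hP, div_lt_iff₀ hP] at hn
  have e2 : vt t - φ - n * P = (vt t - (vt τ + Ω / 2 * (t - τ))) + ((vt τ + Ω / 2 * (t - τ)) - φ - n * P) := by
    ring
  rw [e2]
  refine (abs_add_le _ _).trans_lt ?_
  linarith

lemma fin_arith {A S2 S3 Err Wt TLt M6 V G Λ : ℝ}
    (h : A - Λ * (S2 + Err) - (Λ * (S3 + Err) + Wt) - TLt ≤ 2 * (V + M6 + G))
    (h2 : Λ * S2 ≤ A / 16) (h3 : Λ * S3 ≤ A / 16) (hE : Λ * Err ≤ 1) (hW : Wt ≤ 1) (hT : TLt ≤ 1)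
    (h6 : M6 ≤ 1) (hV : V ≤ A / 16) (hA : 200 ≤ A) : A / 8 ≤ G := by
  have e1 : Λ * (S2 + Err) = Λ * S2 + Λ * Err := by ring
  have e2 : Λ * (S3 + Err) = Λ * S3 + Λ * Err := by ring
  rw [e1, e2] at h
  linarith

lemma rp (T a b : ℝ) (hT : 0 < T) : T ^ a * T ^ b = T ^ (a + b) := (Real.rpow_add hT a b).symm

lemma gq_val' {T e H ρ : ℝ} (hT0 : 0 < T) (hH : H = T ^ (1 / 4 + e)) (hρ : ρ = T ^ (-(1 / 4 + e / 2))) :
    gq H ρ = Real.exp (-(1 / 4 * T ^ e)) := by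
  unfold gq
  congr 1
  have e1 : H ^ 2 * ρ ^ 2 = T ^ e := by
    rw [hH, hρ, ← Real.rpow_natCast, ← Real.rpow_natCast, ← Real.rpow_mul hT0.le, ← Real.rpow_mul hT0.le,
      ← Real.rpow_add hT0]
    congr 1; push_cast; ring
  rw [e1]; ring

lemma RH_val' {T e H R : ℝ} (hT0 : 0 < T) (hH : H = T ^ (1 / 4 + e)) (hR : R = T ^ (1 / 4 + 2 * e))
    (hH0 : 0 < H) : Real.exp (-(R ^ 2 / (2 * H ^ 2))) = Real.exp (-(1 / 2 * T ^ (2 * e))) := by
  congr 1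
  have e1 : R ^ 2 = H ^ 2 * T ^ (2 * e) := by
    rw [hH, hR, ← Real.rpow_natCast, ← Real.rpow_natCast, ← Real.rpow_mul hT0.le,
      ← Real.rpow_mul hT0.le, ← Real.rpow_add hT0]
    congr 1; push_cast; ring
  rw [e1]
  field_simp

lemma R4_le' {T e R : ℝ} (hT0 : 0 < T) (hR : R = T ^ (1 / 4 + 2 * e)) (g : 4 * T ^ (-(3 / 4 - 2 * e)) ≤ 1) :
    4 * R ≤ T := by
  have e1 : 4 * R = (4 * T ^ (-(3 / 4 - 2 * e))) * T := by
    have : T ^ (1 / 4 + 2 * e) = T ^ (-(3 / 4 - 2 * e)) * T := by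
      conv_rhs => rw [← Real.rpow_one T, ← Real.rpow_mul hT0.le, ← Real.rpow_add hT0]
      congr 1; ring
    rw [hR, this]; ring
  rw [e1]
  calc _ ≤ 1 * T := by gcongr
    _ = T := one_mul T

lemma w_val' {T τ R e w : ℝ} (hT : 1000 ≤ T) (hτ1 : T ≤ τ) (hRdef : R = T ^ (1 / 4 + 2 * e)) (hR28 : 28 ≤ R)
    (hw : w = R * (28 + 2 * R) / τ) : w ≤ 3 * T ^ (-(1 / 2 - 4 * e)) := by
  have hT0 : 0 < T := by linarith
  have e1 : T ^ (-(1 / 2 - 4 * e)) = R ^ 2 / T := by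
    have : R ^ 2 = T ^ (-(1 / 2 - 4 * e)) * T := by
      conv_rhs => rw [← Real.rpow_one T, ← Real.rpow_mul hT0.le, ← Real.rpow_add hT0]
      rw [hRdef, ← Real.rpow_natCast, ← Real.rpow_mul hT0.le]
      congr 1; push_cast; ring
    rw [this]; field_simp
  rw [e1, hw]
  have h1 : R * (28 + 2 * R) ≤ 3 * R ^ 2 := by nlinarith
  calc R * (28 + 2 * R) / τ ≤ 3 * R ^ 2 / T := by gcongr
    _ = _ := by ring

lemma Zb_val' {T τ R : ℝ} (hT : 1000 ≤ T) (hτ1 : T ≤ τ) (hτ2 : τ ≤ 3 * T) (h4R : 4 * R ≤ T) :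
    ∀ t ∈ Set.Ioc (τ - R) (τ + R), ‖zl t‖ ≤ 5 * T ^ (1 / 4 : ℝ) := by
  intro t ht
  have hT0 : 0 < T := by linarith
  have hlo : 44 ≤ t := by linarith [ht.1]
  have h := Pool.Agent.TH158.FM.pw_true t hlo
  have e1 : Pool.Agent.TH158.FM.pt (1 / 2) t = 1 / 2 + t * Complex.I := by
    unfold Pool.Agent.TH158.FM.pt
    apply Complex.ext <;> simp
  rw [e1] at h
  have h2 : t / (2 * Real.pi) ≤ T := by
    have := Real.pi_gt_three
    rw [div_le_iff₀ (by positivity)]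
    nlinarith [ht.2]
  have h3 : (t / (2 * Real.pi)) ^ (1 / 4 : ℝ) ≤ T ^ (1 / 4 : ℝ) := by
    have := Real.pi_pos
    exact Real.rpow_le_rpow (by positivity) h2 (by norm_num)
  have h4 : 1 ≤ T ^ (1 / 4 : ℝ) := Real.one_le_rpow (by linarith) (by norm_num)
  unfold zl
  linarith

/-- small products with the maximum of zeta -/
lemma Wt_val {Λ Zb w M T e k : ℝ} (hT0 : 0 < T) (hΛ : 0 ≤ Λ) (hM0 : 0 ≤ M) (hM : M ≤ T ^ (e / 2)) (hw0 : 0 ≤ w)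
    (hZb : Zb = 5 * T ^ (1 / 4 : ℝ)) (hwb : w ≤ 3 * T ^ (-(1 / 2 - 4 * e))) (hk : 0 < k)
    (g : k * Λ * 15 * T ^ (-(1 / 4 - (4 * e + e / 2))) ≤ 1) : Λ * (Zb * w * M) ≤ 1 / k := by
  have k5 : T ^ (1 / 4 : ℝ) * T ^ (-(1 / 2 - 4 * e)) * T ^ (e / 2) = T ^ (-(1 / 4 - (4 * e + e / 2))) := by
    rw [← Real.rpow_add hT0, ← Real.rpow_add hT0]
    congr 1
    ring
  rw [le_div_iff₀ hk]
  calc Λ * (Zb * w * M) * k ≤ Λ * ((5 * T ^ (1 / 4 : ℝ) * (3 * T ^ (-(1 / 2 - 4 * e)))) * T ^ (e / 2)) * k := by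
        rw [hZb]
        gcongr
    _ = k * Λ * 15 * (T ^ (1 / 4 : ℝ) * T ^ (-(1 / 2 - 4 * e)) * T ^ (e / 2)) := by ring
    _ ≤ 1 := by rw [k5]; exact g

/-- the resonant term -/
lemma NB_val {T τ θ e η Cd B ρ Ω Nq : ℝ} (hT : 1000 ≤ T) (hτ1 : T ≤ τ) (hτ2 : τ ≤ 3 * T)
    (hΩ : Ω = Real.log (τ / (2 * Real.pi))) (hΩ2 : Real.log T - 2 ≤ Ω) (hη : 0 < η) (hη1 : η ≤ 1)
    (hθ : 0 < θ) (hθ1 : θ ≤ 1) (hCd : 0 < Cd) (hB : B = Cd * (10 * T ^ 2) ^ (θ / 4)) (hNq : Nq = T ^ θ)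
    (hρ : ρ = T ^ (-(1 / 4 + e / 2))) (hθη : 16 * θ ≤ η) (hθe : 16 * θ ≤ e) :
    2 * B ^ 2 * Nq * (Real.exp (-(η * Ω / 4)) + 4 * ρ * Real.exp (Ω / 4)) ≤
      20 * Cd ^ 2 * (2 * T ^ (-(η / 8)) + 4 * T ^ (-(3 * e / 8))) := by
  have hT0 : 0 < T := by linarith
  have hT1 : 1 ≤ T := by linarith
  have hpi := Real.pi_gt_three
  have hB2 : B ^ 2 ≤ Cd ^ 2 * (10 * T ^ θ) := by
    rw [hB, mul_pow]
    have e1 : ((10 * T ^ 2) ^ (θ / 4)) ^ 2 = (10:ℝ) ^ (θ / 2) * T ^ θ := by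
      rw [Real.mul_rpow (by norm_num) (by positivity), mul_pow, ← Real.rpow_natCast (T) 2, ← Real.rpow_mul hT0.le,
        ← Real.rpow_natCast ((10:ℝ) ^ (θ / 4)), ← Real.rpow_mul (by norm_num),
        ← Real.rpow_natCast (T ^ (((2:ℕ):ℝ) * (θ / 4))), ← Real.rpow_mul hT0.le]
      congr 2
      · push_cast; ring
      · push_cast; ring
    rw [e1]
    have h1 : (10:ℝ) ^ (θ / 2) ≤ 10 := by
      calc (10:ℝ) ^ (θ / 2) ≤ (10:ℝ) ^ (1:ℝ) := Real.rpow_le_rpow_of_exponent_le (by norm_num) (by linarith)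
        _ = 10 := Real.rpow_one _
    have h2 : 0 ≤ T ^ θ := by positivity
    gcongr
  have hX1 : Real.exp (-(η * Ω / 4)) ≤ 2 * T ^ (-(η / 4)) := by
    have h1 : -(η * Ω / 4) ≤ 1 / 2 + Real.log T * (-(η / 4)) := by nlinarith
    have h2 : Real.exp (1 / 2) ≤ 2 := by
      have h11 : Real.exp (1 / 2) ^ 2 = Real.exp 1 := by
        rw [← Real.exp_nat_mul]; norm_num
      have h12 := Real.exp_one_lt_d9
      by_contra hc
      rw [not_le] at hc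
      nlinarith
    calc Real.exp (-(η * Ω / 4)) ≤ Real.exp (1 / 2 + Real.log T * (-(η / 4))) := Real.exp_le_exp.mpr h1
      _ = Real.exp (1 / 2) * T ^ (-(η / 4)) := by rw [Real.exp_add, Real.rpow_def_of_pos hT0]
      _ ≤ _ := by gcongr
  have hX2 : Real.exp (Ω / 4) ≤ T ^ (1 / 4 : ℝ) := by
    rw [Real.rpow_def_of_pos hT0]
    apply Real.exp_le_exp.mpr
    have h1 : Ω ≤ Real.log T := by
      rw [hΩ]
      have hτ0 : 0 < τ := by linarith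
      apply Real.log_le_log (by positivity)
      rw [div_le_iff₀ (by positivity)]
      nlinarith
    linarith
  have hρ0 : 0 ≤ ρ := by rw [hρ]; positivity
  have hX3 : 4 * ρ * Real.exp (Ω / 4) ≤ 4 * T ^ (-(e / 2)) := by
    calc 4 * ρ * Real.exp (Ω / 4) ≤ 4 * ρ * T ^ (1 / 4 : ℝ) := by gcongr
      _ = 4 * (T ^ (-(1 / 4 + e / 2)) * T ^ (1 / 4 : ℝ)) := by rw [hρ]; ring
      _ = _ := by rw [← Real.rpow_add hT0]; congr 2; ring
  have hNq0 : 0 ≤ Nq := by rw [hNq]; positivity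
  calc 2 * B ^ 2 * Nq * (Real.exp (-(η * Ω / 4)) + 4 * ρ * Real.exp (Ω / 4)) ≤
      2 * (Cd ^ 2 * (10 * T ^ θ)) * Nq * (2 * T ^ (-(η / 4)) + 4 * T ^ (-(e / 2))) := by gcongr
    _ = 20 * Cd ^ 2 * (2 * (T ^ θ * T ^ θ * T ^ (-(η / 4))) + 4 * (T ^ θ * T ^ θ * T ^ (-(e / 2)))) := by
        rw [hNq]; ring
    _ ≤ 20 * Cd ^ 2 * (2 * T ^ (-(η / 8)) + 4 * T ^ (-(3 * e / 8))) := by
        have h1 : T ^ θ * T ^ θ * T ^ (-(η / 4)) ≤ T ^ (-(η / 8)) := by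
          rw [← Real.rpow_add hT0, ← Real.rpow_add hT0]
          exact Real.rpow_le_rpow_of_exponent_le hT1 (by linarith)
        have h2 : T ^ θ * T ^ θ * T ^ (-(e / 2)) ≤ T ^ (-(3 * e / 8)) := by
          rw [← Real.rpow_add hT0, ← Real.rpow_add hT0]
          exact Real.rpow_le_rpow_of_exponent_le hT1 (by linarith)
        gcongr

end

end Pool.Agent.W5h34.SG
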