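import Pool.Agent.W5h34.SG.F

set_option autoImplicit false

/-! The lower bound in one window and the final averaging. -/

namespace Pool.Agent.W5h34.SG

open Finset MeasureTheory Filter Topology
open Pool.Agent.H306R2
open Pool.Agent.W188.QS (cp XX)
open Pool.Agent.R311.BS (ex gq FD Lam Lam_ge_one zX ev_small ev_pow ev_rpow_ge
  ev_log_rpow_ge U_lower zX_eq l1 ex_norm ex_add gq_far averaging gw_uncurry gw_lint gq_nonneg)
open Pool.Agent.R311.SE (zl zl_cont Sd ev_logpow Sd_upper U_up fe XX_lin app_val Om_val E3_val TL_val E12_val)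

noncomputable section

set_option maxHeartbeats 4000000 in
theorem window (q : ℕ) (hq : 2 ≤ q) {e P δ₀ : ℝ} (he : 0 < e) (he1 : e ≤ 1 / 32) (hP : 0 < P) (hδ₀ : 0 < δ₀) :
    ∃ c : ℝ, 0 < c ∧ ∀ᶠ T : ℝ in atTop, ∀ τ : ℝ, T ≤ τ → τ ≤ 3 * T → ∀ φ s : ℝ, (s = 1 ∨ s = -1) →
      c * Real.log T ^ (((q:ℝ) / 2) * ((q:ℝ) / 2)) ≤
        ∫ t in Set.Ioc (τ - T ^ (1 / 4 + 2 * e)) (τ + T ^ (1 / 4 + 2 * e)) ∩ SP P δ₀ φ s,
          ‖zl t‖ ^ q * gw τ (T ^ (1 / 4 + e)) t := by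
  have hqr : (2:ℝ) ≤ q := by exact_mod_cast hq
  obtain ⟨κ, hκdef⟩ : ∃ κ : ℝ, κ = (q:ℝ) / 2 := ⟨_, rfl⟩
  have hκ1 : 1 ≤ κ := by rw [hκdef]; linarith only [hqr]
  have hLam := Lam_ge_one
  have hLam0 : 0 < Lam := by linarith only [hLam]
  have hpi := Real.pi_pos
  obtain ⟨l, hl⟩ : ∃ l : ℝ, l = 2 * Real.pi / P := ⟨_, rfl⟩
  have hlpos : 0 < l := by rw [hl]; positivity
  -- separation
  obtain ⟨η0, hη0, hs0⟩ := sep l 0 hlpos
  obtain ⟨η2, hη2, hs2⟩ := sep l 2 hlpos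
  obtain ⟨η1, hη1, hs1⟩ := sep l 1 hlpos
  obtain ⟨ηn, hηn, hsn⟩ := sep l (-1) hlpos
  obtain ⟨η, hηdef⟩ : ∃ η : ℝ, η = min 1 (min (min η0 η2) (min η1 ηn)) := ⟨_, rfl⟩
  have hη : 0 < η := by
    rw [hηdef]
    exact lt_min one_pos (lt_min (lt_min hη0 hη2) (lt_min hη1 hηn))
  have hηle : η ≤ 1 := by rw [hηdef]; exact min_le_left _ _
  have hηr : η ≤ min (min η0 η2) (min η1 ηn) := by rw [hηdef]; exact min_le_right _ _
  have hηr0 : η ≤ η0 := hηr.trans ((min_le_left _ _).trans (min_le_left _ _))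
  have hηr2 : η ≤ η2 := hηr.trans ((min_le_left _ _).trans (min_le_right _ _))
  have hηr1 : η ≤ η1 := hηr.trans ((min_le_right _ _).trans (min_le_left _ _))
  have hηrn : η ≤ ηn := hηr.trans ((min_le_right _ _).trans (min_le_right _ _))
  have hs0' : ∀ m : ℤ, (m:ℝ) * l = 0 ∨ η ≤ |(m:ℝ) * l - 0| := fun m => (hs0 m).imp id (hηr0.trans ·)
  have hs2' : ∀ m : ℤ, (m:ℝ) * l = 2 ∨ η ≤ |(m:ℝ) * l - 2| := fun m => (hs2 m).imp id (hηr2.trans ·)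
  have hs1' : ∀ m : ℤ, (m:ℝ) * l = 1 ∨ η ≤ |(m:ℝ) * l - 1| := fun m => (hs1 m).imp id (hηr1.trans ·)
  have hsn' : ∀ m : ℤ, (m:ℝ) * l = -1 ∨ η ≤ |(m:ℝ) * l - (-1)| := fun m => (hsn m).imp id (hηrn.trans ·)
  clear hs0 hs1 hs2 hsn
  -- the width
  obtain ⟨δ, hδdef⟩ : ∃ δ : ℝ, δ = min (1 / 16) (δ₀ / (4 * P)) := ⟨_, rfl⟩
  have hδ : 0 < δ := by rw [hδdef]; exact lt_min (by norm_num) (by positivity)
  have hδa : δ ≤ 1 / 16 := by rw [hδdef]; exact min_le_left _ _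
  have hδb : δ ≤ δ₀ / (4 * P) := by rw [hδdef]; exact min_le_right _ _
  have hδc : 2 * δ * P ≤ δ₀ / 2 := by
    rw [le_div_iff₀ (by positivity)] at hδb
    linarith only [hδb]
  obtain ⟨γ, hγ⟩ : ∃ γ : ℝ, γ = Real.cos (Real.pi * δ) := ⟨_, rfl⟩
  have hγ0 : 0 < γ := by
    rw [hγ]
    apply Real.cos_pos_of_mem_Ioo
    constructor <;> nlinarith [Real.pi_pos]
  have hγ1 : γ < 1 := by
    rw [hγ]
    have h1 : Real.cos (Real.pi * δ) < Real.cos 0 := by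
      apply Real.cos_lt_cos_of_nonneg_of_le_pi_div_two le_rfl
      · nlinarith [Real.pi_pos]
      · nlinarith [Real.pi_pos]
    rwa [Real.cos_zero] at h1
  have hlogγ : Real.log γ < 0 := Real.log_neg hγ0 hγ1
  obtain ⟨K, hK⟩ : ∃ K : ℝ, K = 1 / (-(2 * Real.log γ)) := ⟨_, rfl⟩
  have hKpos : 0 < K := by rw [hK]; apply one_div_pos.mpr; linarith only [hlogγ]
  -- exponents
  obtain ⟨θ, hθdef⟩ : ∃ θ : ℝ, θ = min e η / 16 := ⟨_, rfl⟩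
  have hθ : 0 < θ := by rw [hθdef]; have := lt_min he hη; positivity
  have hθe : 16 * θ ≤ e := by rw [hθdef]; have := min_le_left e η; linarith only [this]
  have hθη : 16 * θ ≤ η := by rw [hθdef]; have := min_le_right e η; linarith only [this]
  obtain ⟨ν, hν⟩ : ∃ ν : ℝ, ν = θ / q := ⟨_, rfl⟩
  have hq0 : (0:ℝ) < q := by linarith only [hqr]
  have hνpos : 0 < ν := by rw [hν]; positivity
  have hνq : ν * q = θ := by rw [hν]; field_simp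
  -- constants
  obtain ⟨Cd, hCd, hdv⟩ := dv_eps (κ := (q:ℝ) / 2 + 1) (by positivity) (θ / 4) (by positivity)
  obtain ⟨cS, hcS, hSev⟩ := U_lower (κ := κ) hκ1
  obtain ⟨C2, hC2, h2ev⟩ := Sd_upper q q (q - 2) (by omega) (by omega) (by
    rw [Nat.cast_sub hq]; push_cast; linarith only) ν hνpos
  obtain ⟨C3, hC3, h3ev⟩ := Sd_upper q (q - 1) (q - 1) (by omega) (by omega) (by linarith only) ν hνpos
  obtain ⟨C4, hC4, h4ev⟩ := U_up q (by omega) ν hνpos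
  obtain ⟨A₀, hA₀⟩ : ∃ A₀ : ℝ, A₀ = δ ^ 2 * (cS * ν ^ (κ ^ 2)) := ⟨_, rfl⟩
  have hA₀pos : 0 < A₀ := by rw [hA₀]; positivity
  obtain ⟨μ, hμdef⟩ : ∃ μ : ℝ, μ = A₀ / (32 * Lam * C4) := ⟨_, rfl⟩
  have hμpos : 0 < μ := by rw [hμdef]; positivity
  have hconst : 0 < A₀ / (8 * (Lam * (μ⁻¹) ^ (q - 1))) := by positivity
  refine ⟨A₀ / (8 * (Lam * (μ⁻¹) ^ (q - 1))), hconst, ?_⟩
  have ev1 : ∀ᶠ T : ℝ in atTop, cS * (ν * Real.log T) ^ (κ ^ 2) ≤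
      ∑ n ∈ Icc 1 ⌊T ^ ν⌋₊, dv κ n ^ 2 / n := by
    have h1 : Tendsto (fun T : ℝ => ν * Real.log T) atTop atTop :=
      Real.tendsto_log_atTop.const_mul_atTop hνpos
    filter_upwards [h1.eventually hSev, eventually_gt_atTop 0] with T hT hT0
    rw [Real.rpow_def_of_pos hT0, mul_comm (Real.log T)]
    exact hT
  have hα2 : ((q:ℝ) / 2 + 1) * (((q - 2 : ℕ) : ℝ) / 2) < κ ^ 2 := by
    rw [hκdef, Nat.cast_sub hq]; push_cast; nlinarith only [hqr]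
  have hα3 : (((q - 1 : ℕ) : ℝ) / 2 + 1) * (((q - 1 : ℕ) : ℝ) / 2) < κ ^ 2 := by
    rw [hκdef, Nat.cast_sub (by omega : 1 ≤ q)]; push_cast; nlinarith only [hqr]
  obtain ⟨B, hBd⟩ : ∃ B : ℝ, B = ((10:ℝ) ^ (q + 2)) ^ 2 := ⟨_, rfl⟩
  have hBpos : 0 < B := by rw [hBd]; positivity
  have ev2 := ev_logpow (16 * (Lam * C2) / A₀) _ _ hα2
  have ev3 := ev_logpow (16 * (Lam * C3) / A₀) _ _ hα3
  have ev4 := ev_small (4 * (q + 2)) (1 / 4) e (8 * ((Lam + 1) * B)) (by norm_num) he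
  have ev5 := ev_small (4 * (q + 2)) (1 / 2) (2 * e) (16 * ((Lam + 1) * B)) (by norm_num) (by positivity)
  have ev6 := ev_small (4 * (q + 2)) (1 / 4) e (Lam * (2 * μ * B)) (by norm_num) he
  have ev7 := ev_pow (4 * ((Lam + 1) * (1575 * Real.sqrt 2))) (1 / 2 - e / 2) (by linarith only [he1])
  have ev8 := ev_pow (8 * Lam * 15) (1 / 4 - (4 * e + e / 2)) (by linarith only [he1])
  have ev9 := ev_pow (32 * (K / e + 1)) (1 / 2 - 3 * e / 2) (by linarith only [he1])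
  have ev10 := ev_log_rpow_ge 200 A₀ (κ ^ 2) hA₀pos (by positivity)
  have ev11 : ∀ᶠ T : ℝ in atTop, 10 ≤ Real.log T :=
    Real.tendsto_log_atTop.eventually (eventually_ge_atTop 10)
  have ev12 : ∀ᶠ T : ℝ in atTop, 8 / η ≤ Real.log T :=
    Real.tendsto_log_atTop.eventually (eventually_ge_atTop (8 / η))
  have ev13 := ev_pow (3 * (4 / δ₀)) (1 / 2 - 4 * e) (by linarith only [he1])
  have ev14 := ev_rpow_ge 28 (1 / 4 + 2 * e) (by positivity)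
  have ev15 := ev_pow 4 (3 / 4 - 2 * e) (by linarith only [he1])
  have ev16 := ev_pow (16 * Lam * (20 * Cd ^ 2 * 2)) (η / 8) (by positivity)
  have ev17 := ev_pow (16 * Lam * (20 * Cd ^ 2 * 4)) (3 * e / 8) (by positivity)
  have ev18 := ev_pow 3 (1 / 8) (by norm_num)
  filter_upwards [ev1, h2ev, h3ev, h4ev, ev2, ev3, ev4, ev5, ev6, ev7, ev8, ev9, ev10, ev11, ev12, ev13, ev14,
    ev15, ev16, ev17, ev18, eventually_ge_atTop 1000] with T g1 g2 g3 g4 g5 g6 g7 g8 g9 g10 g11 g12 g13 g14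
    g15 g16 g17 g18 g19 g20 g21 hT τ hτ1 hτ2 φ s hs
  clear ev1 h2ev h3ev h4ev ev2 ev3 ev4 ev5 ev6 ev7 ev8 ev9 ev10 ev11 ev12 ev13 ev14 ev15 ev16 ev17 ev18 hSev
  have hT0 : 0 < T := by linarith only [hT]
  have hT1 : 1 ≤ T := by linarith only [hT]
  have hτ100 : 100 ≤ τ := by linarith only [hT, hτ1]
  obtain ⟨N, hNdef⟩ : ∃ N : ℝ, N = T ^ ν := ⟨_, rfl⟩
  rw [← hNdef] at g1 g2 g3 g4
  have hN1 : 1 ≤ N := by rw [hNdef]; exact Real.one_le_rpow hT1 hνpos.le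
  have hNq : N ^ q = T ^ θ := by
    rw [hNdef, ← Real.rpow_natCast, ← Real.rpow_mul hT0.le, hνq]
  have hθ1 : θ ≤ 1 := by linarith only [hθη, hηle, hθ]
  have hNqT : N ^ q ≤ T := by
    rw [hNq]
    calc T ^ θ ≤ T ^ (1:ℝ) := Real.rpow_le_rpow_of_exponent_le hT1 hθ1
      _ = T := Real.rpow_one T
  have hN2 : N ^ (2 * q - 2) ≤ T ^ (e / 2) := by
    calc N ^ (2 * q - 2) ≤ N ^ (2 * q) := pow_le_pow_right₀ hN1 (by omega)
      _ = (N ^ q) ^ 2 := by rw [← pow_mul, mul_comm]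
      _ = T ^ (2 * θ) := by
          rw [hNq, ← Real.rpow_natCast, ← Real.rpow_mul hT0.le]
          congr 1; push_cast; ring
      _ ≤ T ^ (e / 2) := Real.rpow_le_rpow_of_exponent_le hT1 (by linarith only [hθe, hθ])
  have hN0 : 0 < N := by linarith only [hN1]
  have hN20 : 0 ≤ N ^ (2 * q - 2) := (pow_pos hN0 _).le
  obtain ⟨X₀, hX₀⟩ : ∃ X₀ : ℕ, X₀ = ⌈3 * τ⌉₊ := ⟨_, rfl⟩
  have hτ0 : 0 < τ := by linarith only [hτ1, hT0]
  have hX3 : 3 * τ ≤ X₀ := by rw [hX₀]; exact Nat.le_ceil _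
  have hX4 : (X₀:ℝ) ≤ 3 * τ + 1 := by
    rw [hX₀]
    exact (Nat.ceil_lt_add_one (by linarith only [hτ0])).le
  have hXT : (X₀:ℝ) ≤ 10 * T := by linarith only [hX4, hτ2, hT]
  have hXTl : T ≤ (X₀:ℝ) := by linarith only [hX3, hτ1, hT0]
  have hX0 : (0:ℝ) ≤ X₀ := Nat.cast_nonneg _
  have hNX : N ^ q ≤ (X₀:ℝ) := by linarith only [hNqT, hXTl]
  obtain ⟨H, hHdef⟩ : ∃ H : ℝ, H = T ^ (1 / 4 + e) := ⟨_, rfl⟩
  have hH : 0 < H := by rw [hHdef]; exact Real.rpow_pos_of_pos hT0 _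
  obtain ⟨R, hRdef⟩ : ∃ R : ℝ, R = T ^ (1 / 4 + 2 * e) := ⟨_, rfl⟩
  have hR : 0 < R := by rw [hRdef]; exact Real.rpow_pos_of_pos hT0 _
  rw [← hHdef, ← hRdef]
  obtain ⟨Z, hZdef⟩ : ∃ Z : ℝ, Z = 3 * N ^ q := ⟨_, rfl⟩
  have hNq1 : 1 ≤ N ^ q := one_le_pow₀ hN1
  have hZ3 : 3 ≤ Z := by rw [hZdef]; linarith only [hNq1]
  obtain ⟨ρ₀, hρ₀def⟩ : ∃ ρ₀ : ℝ, ρ₀ = 1 / Z := ⟨_, rfl⟩
  have hZ0 : 0 < Z := by linarith only [hZ3]
  have hρ₀0 : 0 < ρ₀ := by rw [hρ₀def]; exact one_div_pos.mpr hZ0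
  have hρ₀1 : ρ₀ ≤ 1 := by rw [hρ₀def, div_le_one hZ0]; linarith only [hZ3]
  obtain ⟨ρ₁, hρ₁def⟩ : ∃ ρ₁ : ℝ, ρ₁ = T ^ (-(1 / 4 + e / 2)) := ⟨_, rfl⟩
  have hρ₁0 : 0 < ρ₁ := by rw [hρ₁def]; exact Real.rpow_pos_of_pos hT0 _
  have hρ10 : ρ₁ ≤ ρ₀ := by
    rw [hρ₀def, le_div_iff₀ hZ0, hZdef, hρ₁def, hNq]
    have h1 : T ^ (-(1 / 4 + e / 2)) * T ^ θ ≤ T ^ (-(1 / 8) : ℝ) := by
      rw [← Real.rpow_add hT0]
      exact Real.rpow_le_rpow_of_exponent_le hT1 (by linarith only [hθη, hηle, hθ, he])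
    calc T ^ (-(1 / 4 + e / 2)) * (3 * T ^ θ) = 3 * (T ^ (-(1 / 4 + e / 2)) * T ^ θ) := by ring
      _ ≤ 3 * T ^ (-(1 / 8) : ℝ) := by gcongr
      _ ≤ 1 := g21
  have hZe : N ^ q * Real.exp 1 ≤ Z := by
    rw [hZdef]
    have := Real.exp_one_lt_d9
    nlinarith only [this, hNq1]
  obtain ⟨L, hLdef⟩ : ∃ L : ℝ, L = 10 ^ (q + 2) * T ^ (2 * (q + 2)) := ⟨_, rfl⟩
  have hNX10 : N ^ q * (X₀:ℝ) ≤ 10 * T ^ 2 := by
    calc N ^ q * (X₀:ℝ) ≤ T * (10 * T) := mul_le_mul hNqT hXT hX0 hT0.le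
      _ = 10 * T ^ 2 := by ring
  have hL : (N ^ q * (X₀:ℝ)) ^ (q + 2) ≤ L := by
    calc (N ^ q * (X₀:ℝ)) ^ (q + 2) ≤ (10 * T ^ 2) ^ (q + 2) := pow_le_pow_left₀ (by positivity) hNX10 _
      _ = L := by rw [hLdef, mul_pow, ← pow_mul]
  have hLL : L * L = B * T ^ (4 * (q + 2)) := by
    rw [hLdef, hBd]
    have : T ^ (4 * (q + 2)) = T ^ (2 * (q + 2)) * T ^ (2 * (q + 2)) := by
      rw [← pow_add]; congr 1; omega
    rw [this]; ring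
  obtain ⟨Bd, hBddef⟩ : ∃ Bd : ℝ, Bd = Cd * (10 * T ^ 2) ^ (θ / 4) := ⟨_, rfl⟩
  have hBd0 : 0 ≤ Bd := by rw [hBddef]; positivity
  have hBdv : ∀ n : ℕ, 1 ≤ n → (n:ℝ) ≤ N ^ q * X₀ → dv ((q:ℝ) / 2 + 1) n ≤ Bd := by
    intro n hn hnX
    refine (hdv n hn).trans ?_
    rw [hBddef]
    have h1 : (n:ℝ) ^ (θ / 4) ≤ (10 * T ^ 2) ^ (θ / 4) :=
      Real.rpow_le_rpow (Nat.cast_nonneg n) (hnX.trans hNX10) (by positivity)
    gcongr
  -- errors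
  have hgq := gq_val' hT0 hHdef hρ₁def
  have hRH := RH_val' hT0 hHdef hRdef hH
  obtain ⟨e₁, he₁def⟩ : ∃ e₁ : ℝ, e₁ = 1575 * (Real.sqrt 2 * T ^ (-(1 / 2) : ℝ)) := ⟨_, rfl⟩
  have he₁0 : 0 ≤ e₁ := by rw [he₁def]; positivity
  have h4R := R4_le' hT0 hRdef g18
  have hRτ : R ≤ τ / 2 := by linarith only [h4R, hτ1, hR]
  have happ := app_val hT hτ1 h4R hX3 hX4 he₁def
  have hZb0 := Zb_val' hT hτ1 hτ2 h4R
  obtain ⟨Zb, hZbdef⟩ : ∃ Zb : ℝ, Zb = 5 * T ^ (1 / 4 : ℝ) := ⟨_, rfl⟩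
  have hZb : ∀ t ∈ Set.Ioc (τ - R) (τ + R), ‖zl t‖ ≤ Zb := by
    rw [hZbdef]; exact hZb0
  have hZbn : 0 ≤ Zb := by rw [hZbdef]; positivity
  obtain ⟨w, hw⟩ : ∃ w : ℝ, w = R * (28 + 2 * R) / τ := ⟨_, rfl⟩
  have hR28 : 28 ≤ R := by rw [hRdef]; exact g17
  have hw0 : 0 ≤ w := by rw [hw]; positivity
  have hwb := w_val' hT hτ1 hRdef hR28 hw
  have hwδ : w < δ₀ / 2 := by
    have h1 : T ^ (-(1 / 2 - 4 * e)) ≤ δ₀ / 12 := by
      have h2 : 3 * (4 / δ₀) * T ^ (-(1 / 2 - 4 * e)) = (12 * T ^ (-(1 / 2 - 4 * e))) / δ₀ := by ring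
      rw [h2, div_le_one hδ₀] at g16
      linarith only [g16]
    linarith only [h1, hwb, hδ₀]
  obtain ⟨e₂, he₂def⟩ : ∃ e₂ : ℝ, e₂ = Zb * w := ⟨_, rfl⟩
  have he₂0 : 0 ≤ e₂ := by rw [he₂def]; exact mul_nonneg hZbn hw0
  obtain ⟨Ω, hΩdef⟩ : ∃ Ω : ℝ, Ω = Real.log (τ / (2 * Real.pi)) := ⟨_, rfl⟩
  have hΩ : Real.log T - 2 ≤ Ω := by rw [hΩdef]; exact Om_val hT hτ1
  obtain ⟨v, hv, hfe⟩ := fe_val hτ100 hRτ hZb
  rw [← hΩdef, ← hw, ← he₂def] at hfe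
  obtain ⟨c₀, hc₀, hEE⟩ := EE_val hτ100 hRτ
  rw [← hΩdef, ← hw] at hEE
  obtain ⟨ψ, hψ⟩ := ph_val (φ := φ) (δ := δ) (δ₀ := δ₀) (P := P) hτ100 hRτ hP hδc hw hwδ
  rw [← hΩdef, ← hl] at hψ
  have hnr : Real.log (N ^ q) + 1 ≤ η * Ω / 2 := by
    rw [hNq, Real.log_rpow hT0]
    have h1 : 8 ≤ η * Real.log T := by
      rw [div_le_iff₀ hη] at g15
      linarith only [g15]
    have h2 : η * (Real.log T - 2) ≤ η * Ω := mul_le_mul_of_nonneg_left hΩ hη.le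
    have h3 : θ * Real.log T ≤ η / 16 * Real.log T := by
      apply mul_le_mul_of_nonneg_right
      · linarith only [hθη]
      · linarith only [g14]
    linarith only [h1, h2, h3, hηle]
  have hWD : WData q N X₀ τ H R e₁ e₂ L Ω ρ₀ ρ₁ Bd η Z v :=
    { hq := hq
      hN := hN1
      hNX := hNX
      hH := hH
      hR := hR
      he₁ := he₁0
      he₂ := he₂0
      hL := hL
      happ := happ
      hv := hv
      hfe := hfe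
      hρ₁ := hρ₁0.le
      hρ10 := hρ10
      hρ₀ := hρ₀1
      hZ := hZe
      hρZ := le_of_eq hρ₀def
      hB0 := hBd0
      hB := hBdv
      hη := hη
      hη1 := hηle
      hΩ := by linarith only [hΩ, g14]
      hnr := hnr }
  obtain ⟨D, hDdef⟩ : ∃ D : ℕ, D = ⌈K * Real.log T⌉₊ := ⟨_, rfl⟩
  have hKℓ : 0 < K * Real.log T := mul_pos hKpos (by linarith only [g14])
  have hD : 1 ≤ D := by rw [hDdef]; exact Nat.one_le_ceil_iff.mpr hKℓ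
  have hDge : K * Real.log T ≤ D := by rw [hDdef]; exact Nat.le_ceil _
  have hDle : (D:ℝ) ≤ K * Real.log T + 1 := by
    rw [hDdef]; exact (Nat.ceil_lt_add_one hKℓ.le).le
  have ht1 : ∀ t ∈ Set.Ioc (τ - R) (τ + R), 1 ≤ t := by
    intro t ht
    have h1 := ht.1
    linarith only [h1, hRτ, hτ100]
  have hcore := core hWD D hD hδ.le (by linarith only [hδa]) ψ hlpos w Zb μ hμpos c₀ hc₀ s hs hs0' hs2' hs1' hsn'
    hEE ht1 hZb (SP P δ₀ φ s) (SP_meas P δ₀ φ s) (by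
      intro t ht hpos n hn
      exact ⟨(comp_sign t s).mpr hpos, n, hψ t ht n hn⟩)
  rw [← hγ] at hcore
  obtain ⟨Err, hErr⟩ : ∃ Err : ℝ, Err = Er q N H R e₁ e₂ L Ω ρ₁ Bd η := ⟨_, rfl⟩
  rw [← hErr] at hcore
  have hgqn := gq_nonneg H ρ₁
  have hLL0 : 0 ≤ L * L := mul_self_nonneg _
  have hE1 : Lam * (L * L * gq H ρ₁) ≤ 1 / 8 := by
    have h1 : Lam * (L * L * gq H ρ₁) ≤ (Lam + 1) * (L * L * gq H ρ₁) := by
      have := mul_nonneg hLL0 hgqn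
      linarith only [this]
    refine h1.trans ?_
    rw [hLL, hgq]
    exact E12_val g7 (by norm_num)
  have hE2 : Lam * (L * L * (2 * Real.exp (-(R ^ 2 / (2 * H ^ 2))))) ≤ 1 / 8 := by
    have h0 : 0 ≤ L * L * Real.exp (-(R ^ 2 / (2 * H ^ 2))) := mul_nonneg hLL0 (Real.exp_pos _).le
    have h1 : Lam * (L * L * (2 * Real.exp (-(R ^ 2 / (2 * H ^ 2))))) ≤
        2 * ((Lam + 1) * (L * L * Real.exp (-(R ^ 2 / (2 * H ^ 2))))) := by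
      linarith only [h0]
    refine h1.trans ?_
    rw [hLL, hRH]
    have h2 := E12_val g8 (by norm_num)
    linarith only [h2]
  have hE3 : Lam * (e₁ * N ^ (2 * q - 2)) ≤ 1 / 4 := by
    have h1 := E3_val hT0 hLam0.le hN2 he₁def g10
    have h2 : 0 ≤ e₁ * N ^ (2 * q - 2) := mul_nonneg he₁0 hN20
    linarith only [h1, h2]
  have hE4 : Lam * (2 * Bd ^ 2 * N ^ q * (Real.exp (-(η * Ω / 4)) + 4 * ρ₁ * Real.exp (Ω / 4))) ≤ 1 / 8 := by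
    have h1 := NB_val hT hτ1 hτ2 hΩdef hΩ hη hηle hθ hθ1 hCd hBddef hNq hρ₁def hθη hθe
    have h2 := mul_le_mul_of_nonneg_left h1 hLam0.le
    refine h2.trans ?_
    have h3 : Lam * (20 * Cd ^ 2 * (2 * T ^ (-(η / 8)) + 4 * T ^ (-(3 * e / 8)))) =
      (16 * Lam * (20 * Cd ^ 2 * 2) * T ^ (-(η / 8)) + 16 * Lam * (20 * Cd ^ 2 * 4) * T ^ (-(3 * e / 8))) / 16 := by
      ring
    rw [h3]
    linarith only [g19, g20]
  have hE5 : Lam * (Zb * w * N ^ (2 * q - 2)) ≤ 1 / 8 :=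
    Wt_val hT0 hLam0.le hN20 hN2 hw0 hZbdef hwb (by norm_num) g11
  have hErb : Lam * Err ≤ 1 := by
    rw [hErr]
    unfold Er E0
    rw [he₂def]
    have h1 : Lam * (L * L * gq H ρ₁ + (L * L * (2 * Real.exp (-(R ^ 2 / (2 * H ^ 2)))) + e₁ * N ^ (2 * q - 2)) +
        2 * Bd ^ 2 * N ^ q * (Real.exp (-(η * Ω / 4)) + 4 * ρ₁ * Real.exp (Ω / 4)) +
        Zb * w * N ^ (2 * q - 2)) = Lam * (L * L * gq H ρ₁) +
        Lam * (L * L * (2 * Real.exp (-(R ^ 2 / (2 * H ^ 2))))) + Lam * (e₁ * N ^ (2 * q - 2)) +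
        Lam * (2 * Bd ^ 2 * N ^ q * (Real.exp (-(η * Ω / 4)) + 4 * ρ₁ * Real.exp (Ω / 4))) +
        Lam * (Zb * w * N ^ (2 * q - 2)) := by ring
    rw [h1]
    linarith only [hE1, hE2, hE3, hE4, hE5]
  have hWt : Lam * w * Zb * N ^ (2 * q - 2) ≤ 1 := by
    have h1 : Lam * w * Zb * N ^ (2 * q - 2) = Lam * (Zb * w * N ^ (2 * q - 2)) := by ring
    rw [h1]
    linarith only [hE5]
  have hT4 : T ^ (1 / 4 : ℝ) ≤ T ^ (1 / 2 : ℝ) := Real.rpow_le_rpow_of_exponent_le hT1 (by norm_num)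
  have hTLb : 2 * (2 * D * γ ^ (2 * D)) * Zb * N ^ (2 * q - 2) ≤ 1 := by
    have h1 := TL_val (D := D) (M := N ^ (2 * q - 2)) hT0 hT1 hγ0 hlogγ hK hKpos he hDge hDle hN20 hN2 g12
    refine le_trans ?_ h1
    have h2 : Zb ≤ 8 * T ^ (1 / 2 : ℝ) := by
      rw [hZbdef]
      have : 0 ≤ T ^ (1 / 4 : ℝ) := (Real.rpow_pos_of_pos hT0 _).le
      linarith only [hT4, this]
    have h3 : 0 ≤ 2 * (2 * (D:ℝ) * γ ^ (2 * D)) := by positivity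
    exact mul_le_mul_of_nonneg_right (mul_le_mul_of_nonneg_left h2 h3) hN20
  -- the main quantities
  have hNN : N ≤ N ^ q := by
    calc N = N ^ 1 := (pow_one N).symm
      _ ≤ N ^ q := pow_le_pow_right₀ hN1 (by omega)
  have hSd := Pool.Agent.R311.SE.Sd_ge N X₀ hN1 (hNN.trans hNX) q hq hNX
  rw [← hκdef] at hSd
  have hℓ0 : 0 < Real.log T := by linarith only [g14]
  obtain ⟨Q, hQ⟩ : ∃ Q : ℝ, Q = Real.log T ^ (κ ^ 2) := ⟨_, rfl⟩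
  have hQ0 : 0 ≤ Q := by rw [hQ]; positivity
  obtain ⟨S1, hS1⟩ : ∃ S1 : ℝ, S1 = δ ^ 2 * Sd N X₀ (q - 2) q := ⟨_, rfl⟩
  have hA : A₀ * Q ≤ S1 := by
    have h1 := g1.trans hSd
    rw [Real.mul_rpow hνpos.le hℓ0.le, ← hQ] at h1
    calc A₀ * Q = δ ^ 2 * (cS * (ν ^ (κ ^ 2) * Q)) := by rw [hA₀]; ring
      _ ≤ S1 := by rw [hS1]; exact mul_le_mul_of_nonneg_left h1 (by positivity)
  have hS2 : Lam * Sd N X₀ q (q - 2) ≤ S1 / 16 := by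
    have h1 := mul_le_mul_of_nonneg_left (g2 X₀ hNX) hLam0.le
    refine h1.trans ?_
    rw [← hQ] at g5
    rw [div_mul_eq_mul_div, div_le_iff₀ hA₀pos] at g5
    linarith only [g5, hA]
  have hS3 : Lam * Sd N X₀ (q - 1) (q - 1) ≤ S1 / 16 := by
    have h1 := mul_le_mul_of_nonneg_left (g3 X₀ hNX) hLam0.le
    refine h1.trans ?_
    rw [← hQ] at g6
    rw [div_mul_eq_mul_div, div_le_iff₀ hA₀pos] at g6
    linarith only [g6, hA]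
  have hexp : ((q:ℝ) / 2) * ((q:ℝ) / 2) = κ ^ 2 := by rw [hκdef]; ring
  rw [hexp] at g4 ⊢
  rw [← hQ] at g4 g13 ⊢
  obtain ⟨U, hU⟩ : ∃ U : ℝ, U = ∑ n ∈ Icc 1 ⌊N ^ q⌋₊, dv ((q:ℝ) / 2) n * dv ((q:ℝ) / 2) n / (n:ℝ) := ⟨_, rfl⟩
  rw [← hU] at g4 hcore
  obtain ⟨G, hG⟩ : ∃ G : ℝ, G = ∫ t in Set.Ioc (τ - R) (τ + R) ∩ SP P δ₀ φ s, ‖zl t‖ ^ q * gw τ H t := ⟨_, rfl⟩
  rw [← hG] at hcore ⊢
  have hV : Lam * (2 * μ * U) ≤ S1 / 16 := by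
    have h1 : Lam * (2 * μ * U) ≤ Lam * (2 * μ * (C4 * Q)) := by gcongr
    have h2 : Lam * (2 * μ * (C4 * Q)) = A₀ * Q / 16 := by
      rw [hμdef]; field_simp; ring
    linarith only [h1, h2, hA]
  have hM6 : Lam * (2 * μ * (L * L * gq H ρ₀)) ≤ 1 := by
    have h1 : gq H ρ₀ ≤ gq H ρ₁ := gq_far H ρ₀ ρ₁ hρ₁0.le (hρ10.trans (le_abs_self _))
    have h2 : Lam * (2 * μ * (L * L * gq H ρ₀)) ≤ Lam * (2 * μ * (L * L * gq H ρ₁)) := by gcongr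
    refine h2.trans ?_
    rw [hLL, hgq]
    refine le_trans (le_of_eq ?_) g9
    ring
  have hsplit : 2 * (Lam * (2 * μ * (U + L * L * gq H ρ₀)) + Lam * (μ⁻¹) ^ (q - 1) * G) =
      2 * (Lam * (2 * μ * U) + Lam * (2 * μ * (L * L * gq H ρ₀)) + Lam * (μ⁻¹) ^ (q - 1) * G) := by ring
  rw [hsplit, ← hS1] at hcore
  have hfin := fin_arith hcore hS2 hS3 hErb hWt hTLb hM6 hV (by linarith only [g13, hA])
  have hden : 0 < 8 * (Lam * (μ⁻¹) ^ (q - 1)) := by positivity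
  rw [div_mul_eq_mul_div, div_le_iff₀ hden]
  linarith only [hfin, hA]

theorem main (q : ℕ) (hq : 2 ≤ q) (ε P δ : ℝ) (hε : 0 < ε) (hP : 0 < P) (hδ : 0 < δ) :
    ∃ c : ℝ, 0 < c ∧ ∀ᶠ T : ℝ in atTop, ∀ H : ℝ, T ^ (1 / 4 + ε) ≤ H → H ≤ T → ∀ φ s : ℝ, (s = 1 ∨ s = -1) →
      c * H * Real.log T ^ ((q:ℝ) ^ 2 / 4) ≤
        ∫ t in {t : ℝ | t ∈ Set.Icc T (T + H) ∧ 0 < s * (completedRiemannZeta (1 / 2 + t * Complex.I)).re ∧
          ∃ n : ℤ, |vt t - φ - n * P| < δ}, ‖riemannZeta (1 / 2 + t * Complex.I)‖ ^ q := by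
  obtain ⟨e, he⟩ : ∃ e : ℝ, e = min (ε / 3) (1 / 32) := ⟨_, rfl⟩
  have he0 : 0 < e := by rw [he]; exact lt_min (by positivity) (by norm_num)
  have he1 : e ≤ 1 / 32 := by rw [he]; exact min_le_right _ _
  have he2 : e ≤ ε / 3 := by rw [he]; exact min_le_left _ _
  obtain ⟨c, hc, h⟩ := window q hq he0 he1 hP hδ
  refine ⟨c / 2, by positivity, ?_⟩
  filter_upwards [h, ev_rpow_ge 4 (ε / 3) (by positivity), eventually_ge_atTop 1] with T hT h4 hT1 H hH1 hH2 φ s hs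
  have hT0 : 0 < T := by linarith
  have hlog : 0 ≤ Real.log T := Real.log_nonneg hT1
  obtain ⟨R, hR⟩ : ∃ R : ℝ, R = T ^ (1 / 4 + 2 * e) := ⟨_, rfl⟩
  have hR0 : 0 < R := by rw [hR]; positivity
  have hRH : 4 * R ≤ H := by
    refine le_trans ?_ hH1
    calc 4 * R ≤ T ^ (ε / 3) * T ^ (1 / 4 + 2 * e) := by rw [hR]; gcongr
      _ = T ^ (ε / 3 + (1 / 4 + 2 * e)) := by rw [← Real.rpow_add hT0]
      _ ≤ T ^ (1 / 4 + ε) := Real.rpow_le_rpow_of_exponent_le hT1 (by linarith)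
  have hH0 : 0 < H := by linarith
  rw [← hR] at hT
  have hset : {t : ℝ | t ∈ Set.Icc T (T + H) ∧ 0 < s * (completedRiemannZeta (1 / 2 + t * Complex.I)).re ∧
          ∃ n : ℤ, |vt t - φ - n * P| < δ} = Set.Icc T (T + H) ∩ SP P δ φ s := rfl
  rw [hset]
  have hex : (q:ℝ) / 2 * ((q:ℝ) / 2) = (q:ℝ) ^ 2 / 4 := by ring
  rw [hex] at hT
  have hav := averaging (fun t => ‖zl t‖ ^ q) (zl_cont.norm.pow q) (fun t => by positivity)
    (Set.Icc T (T + H) ∩ SP P δ φ s) (measurableSet_Icc.inter (SP_meas P δ φ s)) T (T + H)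
    Set.inter_subset_left (fun τ t => gw τ (T ^ (1 / 4 + e)) t) (gw_uncurry _)
    (fun τ t => gw_nonneg _ _ _ (by positivity)) (gw_lint _ (by positivity)) (T + R) (T + H - R)
    (c * Real.log T ^ ((q:ℝ) ^ 2 / 4)) (by linarith) (by positivity) (by
      intro τ hτ
      refine (hT τ (by linarith [hτ.1]) (by linarith [hτ.2]) φ s hs).trans ?_
      refine setIntegral_mono_set ?_ ?_ ?_
      · have hc : Continuous fun t => ‖zl t‖ ^ q * gw τ (T ^ (1 / 4 + e)) t :=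
          (zl_cont.norm.pow q).mul (gw_continuous _ _)
        exact hc.integrableOn_Icc.mono_set Set.inter_subset_left
      · refine Eventually.of_forall fun t => ?_
        have := gw_nonneg τ (T ^ (1 / 4 + e)) t (by positivity)
        simp only [Pi.zero_apply]
        positivity
      · refine Eventually.of_forall fun t ht => ?_
        refine ⟨⟨?_, ?_⟩, ht.2⟩
        · linarith [ht.1.1, hτ.1]
        · linarith [ht.1.2, hτ.2])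
  refine le_trans ?_ hav
  have hp : 0 ≤ c * Real.log T ^ ((q:ℝ) ^ 2 / 4) := by positivity
  calc c / 2 * H * Real.log T ^ ((q:ℝ) ^ 2 / 4) = (H / 2) * (c * Real.log T ^ ((q:ℝ) ^ 2 / 4)) := by ring
    _ ≤ (T + H - R - (T + R)) * (c * Real.log T ^ ((q:ℝ) ^ 2 / 4)) := by
        gcongr
        linarith

end

end Pool.Agent.W5h34.SG
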